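import Mathlib

set_option autoImplicit false

namespace Pool.Agent.ExtGap

/-- The twelve dimensional algebra with basis
`1, y1, y2, w1, w2, z, z*y1, z*y2, y1*y2, y1*w1, y2*w2, s`. -/
def A (k : Type) : Type := Fin 12 → k

namespace A

@[ext] theorem ext {k : Type} {x y : A k} (h : ∀ i, x i = y i) : x = y := funext h

theorem ext12 {k : Type} {x y : A k} (h0 : x 0 = y 0) (h1 : x 1 = y 1) (h2 : x 2 = y 2)
    (h3 : x 3 = y 3)
    (h4 : x 4 = y 4) (h5 : x 5 = y 5) (h6 : x 6 = y 6) (h7 : x 7 = y 7) (h8 : x 8 = y 8)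
    (h9 : x 9 = y 9) (h10 : x 10 = y 10) (h11 : x 11 = y 11) : x = y := by
  funext i
  fin_cases i <;> assumption

/-- Constructor from coordinates. -/
def mk {k : Type} (v : Fin 12 → k) : A k := v

@[simp] theorem mk_apply {k : Type} (v : Fin 12 → k) (i : Fin 12) : mk v i = v i := rfl

variable {k : Type} [CommRing k]

instance : AddCommGroup (A k) := inferInstanceAs (AddCommGroup (Fin 12 → k))
instance : Module k (A k) := inferInstanceAs (Module k (Fin 12 → k))
instance {k : Type} [Finite k] : Finite (A k) := inferInstanceAs (Finite (Fin 12 → k))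
instance : Module.Finite k (A k) := inferInstanceAs (Module.Finite k (Fin 12 → k))
instance : Module.Free k (A k) := inferInstanceAs (Module.Free k (Fin 12 → k))

theorem finrank_eq [Nontrivial k] : Module.finrank k (A k) = 12 := by
  have : Module.finrank k (Fin 12 → k) = 12 := by simp
  exact this

@[simp] theorem add_apply (x y : A k) (i : Fin 12) : (x + y) i = x i + y i := rfl
@[simp] theorem neg_apply (x : A k) (i : Fin 12) : (-x) i = - x i := rfl
@[simp] theorem sub_apply (x y : A k) (i : Fin 12) : (x - y) i = x i - y i := rfl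
@[simp] theorem zero_apply (i : Fin 12) : (0 : A k) i = 0 := rfl
@[simp] theorem smul_apply (c : k) (x : A k) (i : Fin 12) : (c • x) i = c * x i := rfl

/-- The multiplication. -/
def mul (x y : A k) : A k :=
  mk (![x 0 * y 0,
    x 0 * y 1 + x 1 * y 0,
    x 0 * y 2 + x 2 * y 0,
    x 0 * y 3 + x 3 * y 0,
    x 0 * y 4 + x 4 * y 0,
    x 0 * y 5 + x 5 * y 0,
    x 0 * y 6 + x 6 * y 0 + (x 1 * y 5 + x 5 * y 1) + x 4 * y 4,
    x 0 * y 7 + x 7 * y 0 + (x 2 * y 5 + x 5 * y 2) + x 3 * y 3,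
    x 0 * y 8 + x 8 * y 0 + (x 1 * y 2 + x 2 * y 1),
    x 0 * y 9 + x 9 * y 0 + (x 1 * y 3 + x 3 * y 1),
    x 0 * y 10 + x 10 * y 0 + (x 2 * y 4 + x 4 * y 2),
    x 0 * y 11 + x 11 * y 0 + (x 1 * y 7 + x 7 * y 1) + (x 2 * y 6 + x 6 * y 2)
      + (x 5 * y 8 + x 8 * y 5) + (x 3 * y 9 + x 9 * y 3) + (x 4 * y 10 + x 10 * y 4)])

instance : Mul (A k) := ⟨mul⟩
instance : One (A k) := ⟨mk ![1, 0, 0, 0, 0, 0, 0, 0, 0, 0, 0, 0]⟩

section
variable (x y : A k)

@[simp] theorem mul_0 : (x * y) 0 = x 0 * y 0 := rfl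
@[simp] theorem mul_1 : (x * y) 1 = x 0 * y 1 + x 1 * y 0 := rfl
@[simp] theorem mul_2 : (x * y) 2 = x 0 * y 2 + x 2 * y 0 := rfl
@[simp] theorem mul_3 : (x * y) 3 = x 0 * y 3 + x 3 * y 0 := rfl
@[simp] theorem mul_4 : (x * y) 4 = x 0 * y 4 + x 4 * y 0 := rfl
@[simp] theorem mul_5 : (x * y) 5 = x 0 * y 5 + x 5 * y 0 := rfl
@[simp] theorem mul_6 : (x * y) 6 =
    x 0 * y 6 + x 6 * y 0 + (x 1 * y 5 + x 5 * y 1) + x 4 * y 4 := rfl
@[simp] theorem mul_7 : (x * y) 7 =
    x 0 * y 7 + x 7 * y 0 + (x 2 * y 5 + x 5 * y 2) + x 3 * y 3 := rfl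
@[simp] theorem mul_8 : (x * y) 8 = x 0 * y 8 + x 8 * y 0 + (x 1 * y 2 + x 2 * y 1) := rfl
@[simp] theorem mul_9 : (x * y) 9 = x 0 * y 9 + x 9 * y 0 + (x 1 * y 3 + x 3 * y 1) := rfl
@[simp] theorem mul_10 : (x * y) 10 = x 0 * y 10 + x 10 * y 0 + (x 2 * y 4 + x 4 * y 2) := rfl
@[simp] theorem mul_11 : (x * y) 11 =
    x 0 * y 11 + x 11 * y 0 + (x 1 * y 7 + x 7 * y 1) + (x 2 * y 6 + x 6 * y 2)
      + (x 5 * y 8 + x 8 * y 5) + (x 3 * y 9 + x 9 * y 3) + (x 4 * y 10 + x 10 * y 4) := rfl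
end

@[simp] theorem one_0 : (1 : A k) 0 = 1 := rfl
@[simp] theorem one_1 : (1 : A k) 1 = 0 := rfl
@[simp] theorem one_2 : (1 : A k) 2 = 0 := rfl
@[simp] theorem one_3 : (1 : A k) 3 = 0 := rfl
@[simp] theorem one_4 : (1 : A k) 4 = 0 := rfl
@[simp] theorem one_5 : (1 : A k) 5 = 0 := rfl
@[simp] theorem one_6 : (1 : A k) 6 = 0 := rfl
@[simp] theorem one_7 : (1 : A k) 7 = 0 := rfl
@[simp] theorem one_8 : (1 : A k) 8 = 0 := rfl
@[simp] theorem one_9 : (1 : A k) 9 = 0 := rfl
@[simp] theorem one_10 : (1 : A k) 10 = 0 := rfl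
@[simp] theorem one_11 : (1 : A k) 11 = 0 := rfl

instance : CommRing (A k) :=
  { (inferInstance : AddCommGroup (A k)) with
    mul := (· * ·)
    one := 1
    left_distrib := by
      intro a b c
      apply ext12 <;> simp <;> ring
    right_distrib := by
      intro a b c
      apply ext12 <;> simp <;> ring
    zero_mul := by
      intro a
      apply ext12 <;> simp
    mul_zero := by
      intro a
      apply ext12 <;> simp
    mul_assoc := by
      intro a b c
      apply ext12 <;> simp <;> ring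
    one_mul := by
      intro a
      apply ext12 <;> simp
    mul_one := by
      intro a
      apply ext12 <;> simp
    mul_comm := by
      intro a b
      apply ext12 <;> simp <;> ring }

instance : Algebra k (A k) := Algebra.ofModule
  (by intro r x y; apply ext12 <;> simp <;> ring)
  (by intro r x y; apply ext12 <;> simp <;> ring)

/-- Evaluation at the constant coefficient. -/
def aug : A k →+* k where
  toFun x := x 0
  map_one' := rfl
  map_mul' _ _ := rfl
  map_zero' := rfl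
  map_add' _ _ := rfl

@[simp] theorem aug_apply (x : A k) : aug x = x 0 := rfl

theorem mul_eq_zero_4 (x y z t : A k) (hx : x 0 = 0) (hy : y 0 = 0) (hz : z 0 = 0)
    (ht : t 0 = 0) : x * y * (z * t) = 0 := by
  apply ext12 <;> simp [hx, hy, hz, ht]

theorem isUnit_iff {k : Type} [Field k] (x : A k) : IsUnit x ↔ x 0 ≠ 0 := by
  constructor
  · intro h
    have := h.map (aug (k := k))
    simpa using this.ne_zero
  · intro h
    set u : A k := (x 0)⁻¹ • x with hu
    have h0 : (1 - u) 0 = 0 := by simp [hu, h]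
    have hn : IsNilpotent (1 - u) := by
      refine ⟨4, ?_⟩
      have : (1 - u) ^ 4 = (1 - u) * (1 - u) * ((1 - u) * (1 - u)) := by ring
      rw [this]
      exact mul_eq_zero_4 _ _ _ _ h0 h0 h0 h0
    have h1 : IsUnit u := by
      have := hn.isUnit_one_sub
      simpa using this
    have h2 : x = (algebraMap k (A k) (x 0)) * u := by
      rw [← Algebra.smul_def, hu, smul_smul, mul_inv_cancel₀ h, one_smul]
    rw [h2]
    exact ((IsUnit.mk0 _ h).map (algebraMap k (A k))).mul h1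

instance {k : Type} [Field k] : Nontrivial (A k) :=
  ⟨⟨0, 1, fun h => zero_ne_one (congrArg (fun x : A k => x 0) h)⟩⟩

instance {k : Type} [Field k] : IsLocalRing (A k) := by
  refine IsLocalRing.of_nonunits_add ?_
  intro a b ha hb
  rw [mem_nonunits_iff, isUnit_iff, not_not] at *
  simp [ha, hb]

theorem mem_maximalIdeal {k : Type} [Field k] (x : A k) :
    x ∈ IsLocalRing.maximalIdeal (A k) ↔ x 0 = 0 := by
  rw [IsLocalRing.mem_maximalIdeal, mem_nonunits_iff, isUnit_iff, not_not]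

instance {k : Type} [Field k] : IsNoetherianRing (A k) :=
  isNoetherian_of_isNoetherianRing_of_finite k (A k) |> fun _ =>
    isNoetherian_of_tower k inferInstance

/-- The exact zero divisor `y1 + y2`. -/
def a : A k := mk ![0, 1, 1, 0, 0, 0, 0, 0, 0, 0, 0, 0]

@[simp] theorem a_0 : (a : A k) 0 = 0 := rfl
@[simp] theorem a_1 : (a : A k) 1 = 1 := rfl
@[simp] theorem a_2 : (a : A k) 2 = 1 := rfl
@[simp] theorem a_3 : (a : A k) 3 = 0 := rfl
@[simp] theorem a_4 : (a : A k) 4 = 0 := rfl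
@[simp] theorem a_5 : (a : A k) 5 = 0 := rfl
@[simp] theorem a_6 : (a : A k) 6 = 0 := rfl
@[simp] theorem a_7 : (a : A k) 7 = 0 := rfl
@[simp] theorem a_8 : (a : A k) 8 = 0 := rfl
@[simp] theorem a_9 : (a : A k) 9 = 0 := rfl
@[simp] theorem a_10 : (a : A k) 10 = 0 := rfl
@[simp] theorem a_11 : (a : A k) 11 = 0 := rfl

theorem a_mul_a [CharP k 2] : (a * a : A k) = 0 := by
  have h2 : (1 : k) + 1 = 0 := by
    have := CharP.cast_eq_zero k 2
    norm_num at this ⊢
    exact this
  apply ext12 <;> simp [h2]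

theorem exists_of_a_mul [CharP k 2] (x : A k) (h : a * x = 0) : ∃ y, x = a * y := by
  have h1 := congrArg (fun x : A k => x 1) h
  have h6 := congrArg (fun x : A k => x 6) h
  have h8 := congrArg (fun x : A k => x 8) h
  have h9 := congrArg (fun x : A k => x 9) h
  have h10 := congrArg (fun x : A k => x 10) h
  have h11 := congrArg (fun x : A k => x 11) h
  simp at h1 h6 h8 h9 h10 h11
  have e1 : x 1 = x 2 := by
    have := CharTwo.add_eq_zero.mp h8
    exact this.symm
  have e6 : x 7 = x 6 := CharTwo.add_eq_zero.mp h11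
  refine ⟨mk ![x 1, x 8, 0, x 9, x 10, x 6, x 11, 0, 0, 0, 0, 0], ?_⟩
  apply ext12 <;> simp [h1, h6, h9, h10, e1, e6]

end A

end Pool.Agent.ExtGap
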