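import Mathlib
import Pool.Agent.ExtGap.Ring

set_option autoImplicit false

namespace Pool.Agent.ExtGap

variable {k : Type} [Field k]

/-- The `k`-linear dual of a module. -/
def D (k X : Type) [Field k] [AddCommGroup X] [Module k X] : Type := X →ₗ[k] k

section
variable {X Y Z : Type} [AddCommGroup X] [Module k X] [AddCommGroup Y] [Module k Y]
  [AddCommGroup Z] [Module k Z]

instance : AddCommGroup (D k X) := inferInstanceAs (AddCommGroup (X →ₗ[k] k))
instance : Module k (D k X) := inferInstanceAs (Module k (X →ₗ[k] k))
instance : FunLike (D k X) X k := inferInstanceAs (FunLike (X →ₗ[k] k) X k)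
instance : LinearMapClass (D k X) k X k := inferInstanceAs (LinearMapClass (X →ₗ[k] k) k X k)
instance [Module.Finite k X] : Module.Finite k (D k X) :=
  inferInstanceAs (Module.Finite k (X →ₗ[k] k))

theorem D.finrank_eq : Module.finrank k (D k X) = Module.finrank k X :=
  Subspace.dual_finrank_eq

@[ext] theorem D.ext {f g : D k X} (h : ∀ x, f x = g x) : f = g := LinearMap.ext h

@[simp] theorem D.add_apply (f g : D k X) (x : X) : (f + g) x = f x + g x := rfl
@[simp] theorem D.zero_apply (x : X) : (0 : D k X) x = 0 := rfl
@[simp] theorem D.ksmul_apply (c : k) (f : D k X) (x : X) : (c • f) x = c * f x := rfl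

variable [Module (A k) X] [IsScalarTower k (A k) X] [Module (A k) Y] [IsScalarTower k (A k) Y]
  [Module (A k) Z] [IsScalarTower k (A k) Z]

instance : SMul (A k) (D k X) where
  smul r f := (f : X →ₗ[k] k) ∘ₗ (LinearMap.lsmul (A k) X r).restrictScalars k

@[simp] theorem D.smul_apply (r : A k) (f : D k X) (x : X) : (r • f) x = f (r • x) := rfl

instance : Module (A k) (D k X) where
  one_smul f := by ext x; simp
  mul_smul r s f := by
    ext x
    rw [D.smul_apply, D.smul_apply, D.smul_apply, smul_smul, mul_comm]
  smul_zero r := by ext x; simp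
  smul_add r f g := by ext x; simp
  add_smul r s f := by ext x; simp [add_smul]
  zero_smul f := by ext x; simp

instance : IsScalarTower k (A k) (D k X) where
  smul_assoc c r f := by
    ext x
    simp

/-- Functoriality of the dual. -/
def Dmap (f : X →ₗ[A k] Y) : D k Y →ₗ[A k] D k X where
  toFun g := (g : Y →ₗ[k] k) ∘ₗ f.restrictScalars k
  map_add' _ _ := rfl
  map_smul' r g := by
    ext x
    change g (r • f x) = g (f (r • x))
    rw [f.map_smul]

@[simp] theorem Dmap_apply (f : X →ₗ[A k] Y) (g : D k Y) (x : X) : Dmap f g x = g (f x) := rfl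

theorem Dmap_injective (f : X →ₗ[A k] Y) (hf : Function.Surjective f) :
    Function.Injective (Dmap f) := by
  intro g h hgh
  ext y
  obtain ⟨x, rfl⟩ := hf y
  exact DFunLike.congr_fun hgh x

theorem exists_extend_of_injective (f : X →ₗ[A k] Y) (hf : Function.Injective f)
    (g : D k X) : ∃ h : D k Y, ∀ x, h (f x) = g x := by
  obtain ⟨l, hl⟩ := LinearMap.exists_leftInverse_of_injective (f.restrictScalars k)
    (LinearMap.ker_eq_bot.mpr hf)
  refine ⟨(g : X →ₗ[k] k) ∘ₗ l, fun x => ?_⟩
  change g (l (f x)) = g x
  have := LinearMap.congr_fun hl x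
  simp at this
  rw [this]

theorem Dmap_surjective (f : X →ₗ[A k] Y) (hf : Function.Injective f) :
    Function.Surjective (Dmap f) := by
  intro g
  obtain ⟨h, hh⟩ := exists_extend_of_injective f hf g
  exact ⟨h, D.ext hh⟩

theorem Dmap_exact (f : X →ₗ[A k] Y) (g : Y →ₗ[A k] Z) (hg : Function.Surjective g)
    (hfg : Function.Exact f g) : Function.Exact (Dmap g) (Dmap f) := by
  intro h
  constructor
  · intro hh
    -- h vanishes on the image of f, i.e. on the kernel of g
    have hk : LinearMap.ker (g.restrictScalars k) ≤ LinearMap.ker (h : Y →ₗ[k] k) := by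
      intro y hy
      obtain ⟨x, rfl⟩ := (hfg y).mp hy
      exact DFunLike.congr_fun hh x
    obtain ⟨s, hs⟩ := LinearMap.exists_rightInverse_of_surjective (g.restrictScalars k)
      (LinearMap.range_eq_top.mpr hg)
    refine ⟨(h : Y →ₗ[k] k) ∘ₗ s, ?_⟩
    ext y
    change h (s (g y)) = h y
    have h1 : s (g y) - y ∈ LinearMap.ker (g.restrictScalars k) := by
      have := LinearMap.congr_fun hs (g y)
      simp at this
      simp [this]
    have h2 : h (s (g y) - y) = 0 := hk h1
    rw [map_sub, sub_eq_zero] at h2
    exact h2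
  · rintro ⟨u, rfl⟩
    ext x
    change u (g (f x)) = 0
    rw [hfg.apply_apply_eq_zero, map_zero]

/-- The double dual. -/
def toDD (X : Type) [AddCommGroup X] [Module k X] [Module (A k) X] [IsScalarTower k (A k) X] :
    X →ₗ[A k] D k (D k X) where
  toFun x :=
    { toFun := fun f => f x
      map_add' := fun _ _ => rfl
      map_smul' := fun _ _ => rfl }
  map_add' x y := by
    ext f
    exact map_add f x y
  map_smul' r x := by
    ext f
    rfl

@[simp] theorem toDD_apply (x : X) (f : D k X) : toDD (k := k) X x f = f x := rfl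

theorem toDD_bijective [Module.Finite k X] : Function.Bijective (toDD (k := k) X) := by
  have h1 : Function.Injective ((toDD (k := k) X).restrictScalars k) := by
    rw [← LinearMap.ker_eq_bot, eq_bot_iff]
    intro x hx
    rw [Submodule.mem_bot]
    rw [LinearMap.mem_ker] at hx
    exact (Module.forall_dual_apply_eq_zero_iff k x).mp
      fun f => DFunLike.congr_fun hx (f : D k X)
  have h2 : Module.finrank k X = Module.finrank k (D k (D k X)) := by
    rw [D.finrank_eq, D.finrank_eq]
  exact ⟨h1, (LinearMap.injective_iff_surjective_of_finrank_eq_finrank h2).mp h1⟩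

/-- A finite dimensional module is its own double dual. -/
noncomputable def equivDD (X : Type) [AddCommGroup X] [Module k X] [Module (A k) X]
    [IsScalarTower k (A k) X] [Module.Finite k X] : X ≃ₗ[A k] D k (D k X) :=
  LinearEquiv.ofBijective (toDD (k := k) X) toDD_bijective

end

instance : Module.Injective (A k) (D k (A k)) where
  out := by
    intro X Y _ _ _ _ f hf g
    let _ : Module k X := Module.compHom X (algebraMap k (A k))
    let _ : Module k Y := Module.compHom Y (algebraMap k (A k))
    have _ : IsScalarTower k (A k) X := ⟨fun c r x => by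
      change (c • r) • x = (algebraMap k (A k) c) • (r • x)
      rw [Algebra.smul_def, mul_smul]⟩
    have _ : IsScalarTower k (A k) Y := ⟨fun c r x => by
      change (c • r) • x = (algebraMap k (A k) c) • (r • x)
      rw [Algebra.smul_def, mul_smul]⟩
    let γ : D k X := 
      { toFun := fun x => g x 1
        map_add' := fun x y => by rw [map_add]; rfl
        map_smul' := fun c x => by
          have : g (c • x) = (algebraMap k (A k) c) • g x := g.map_smul _ _
          rw [this, D.smul_apply, RingHom.id_apply, smul_eq_mul, mul_one, Algebra.algebraMap_eq_smul_one,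
            map_smul] }
    obtain ⟨γ', hγ'⟩ := exists_extend_of_injective f hf γ
    refine ⟨{ toFun := fun y =>
                { toFun := fun r => γ' (r • y)
                  map_add' := fun r s => by rw [add_smul, map_add]
                  map_smul' := fun c r => by rw [smul_assoc, map_smul]; rfl }
              map_add' := fun x y => by
                ext r
                change γ' (r • (x + y)) = γ' (r • x) + γ' (r • y)
                rw [smul_add, map_add]
              map_smul' := fun s y => by
                ext r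
                change γ' (r • s • y) = γ' ((s • r) • y)
                rw [smul_smul, smul_eq_mul, mul_comm] }, fun x => ?_⟩
    ext r
    change γ' (r • f x) = g x r
    rw [← map_smul, hγ']
    change g (r • x) 1 = g x r
    rw [map_smul, D.smul_apply, smul_eq_mul, mul_one]

/-- The Frobenius pairing as a map into the dual of a free module. -/
def frob (n : ℕ) : (Fin n → A k) →ₗ[A k] D k (Fin n → A k) where
  toFun x :=
    { toFun := fun y => (∑ i, x i * y i) 11
      map_add' := fun y z => by
        simp only [Pi.add_apply, mul_add, Finset.sum_add_distrib, A.add_apply]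
      map_smul' := fun c y => by
        simp only [Pi.smul_apply, mul_smul_comm, ← Finset.smul_sum, A.smul_apply]
        rfl }
  map_add' x y := by
    ext z
    change (∑ i, (x i + y i) * z i : A k) 11 = (∑ i, x i * z i : A k) 11 + (∑ i, y i * z i : A k) 11
    simp only [add_mul, Finset.sum_add_distrib, A.add_apply]
  map_smul' r x := by
    ext z
    have h : (∑ i, (r * x i) * z i : A k) = (∑ i, x i * (r * z i) : A k) :=
      Finset.sum_congr rfl fun i _ => by ring
    exact congrArg (fun u : A k => u 11) h

theorem frob_apply (n : ℕ) (x y : Fin n → A k) :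
    frob n x y = (∑ i, x i * y i : A k) 11 := rfl

theorem frob_single (n : ℕ) (x : Fin n → A k) (i : Fin n) (r : A k) :
    frob n x (Pi.single i r) = (x i * r) 11 := by
  rw [frob_apply, Finset.sum_eq_single i]
  · simp
  · intro j _ hj
    simp [hj]
  · simp

theorem frob_injective (n : ℕ) : Function.Injective (frob (k := k) n) := by
  rw [← LinearMap.ker_eq_bot, eq_bot_iff]
  intro x hx
  rw [Submodule.mem_bot]
  rw [LinearMap.mem_ker] at hx
  funext i
  have h : ∀ r : A k, (x i * r) 11 = 0 := by
    intro r
    rw [← frob_single, hx]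
    rfl
  apply A.ext12
  · simpa using h (A.mk ![0, 0, 0, 0, 0, 0, 0, 0, 0, 0, 0, 1])
  · simpa using h (A.mk ![0, 0, 0, 0, 0, 0, 0, 1, 0, 0, 0, 0])
  · simpa using h (A.mk ![0, 0, 0, 0, 0, 0, 1, 0, 0, 0, 0, 0])
  · simpa using h (A.mk ![0, 0, 0, 0, 0, 0, 0, 0, 0, 1, 0, 0])
  · simpa using h (A.mk ![0, 0, 0, 0, 0, 0, 0, 0, 0, 0, 1, 0])
  · simpa using h (A.mk ![0, 0, 0, 0, 0, 0, 0, 0, 1, 0, 0, 0])
  · simpa using h (A.mk ![0, 0, 1, 0, 0, 0, 0, 0, 0, 0, 0, 0])
  · simpa using h (A.mk ![0, 1, 0, 0, 0, 0, 0, 0, 0, 0, 0, 0])
  · simpa using h (A.mk ![0, 0, 0, 0, 0, 1, 0, 0, 0, 0, 0, 0])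
  · simpa using h (A.mk ![0, 0, 0, 1, 0, 0, 0, 0, 0, 0, 0, 0])
  · simpa using h (A.mk ![0, 0, 0, 0, 1, 0, 0, 0, 0, 0, 0, 0])
  · simpa using h (A.mk ![1, 0, 0, 0, 0, 0, 0, 0, 0, 0, 0, 0])

theorem frob_bijective (n : ℕ) : Function.Bijective (frob (k := k) n) := by
  have h2 : Module.finrank k (Fin n → A k) = Module.finrank k (D k (Fin n → A k)) :=
    D.finrank_eq.symm
  exact ⟨frob_injective n, (LinearMap.injective_iff_surjective_of_finrank_eq_finrank
    (f := (frob (k := k) n).restrictScalars k) h2).mp (frob_injective n)⟩

/-- Free modules are self dual. -/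
noncomputable def frobEquiv (n : ℕ) : (Fin n → A k) ≃ₗ[A k] D k (Fin n → A k) :=
  LinearEquiv.ofBijective (frob n) (frob_bijective n)

theorem injective_congr {R X Y : Type} [CommRing R] [AddCommGroup X] [Module R X]
    [AddCommGroup Y] [Module R Y] (e : X ≃ₗ[R] Y) [h : Module.Injective R X] :
    Module.Injective R Y where
  out := by
    intro P Q _ _ _ _ f hf g
    obtain ⟨u, hu⟩ := h.out f hf (e.symm.toLinearMap ∘ₗ g)
    refine ⟨e.toLinearMap ∘ₗ u, fun x => ?_⟩
    simp [hu]

instance : Module.Injective (A k) (A k) := by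
  let e1 : (Fin 1 → A k) ≃ₗ[A k] A k := LinearEquiv.funUnique (Fin 1) (A k) (A k)
  let f : A k →ₗ[A k] D k (A k) := (Dmap e1.symm.toLinearMap) ∘ₗ (frob 1) ∘ₗ e1.symm.toLinearMap
  have hf : Function.Bijective f := by
    constructor
    · exact (Dmap_injective _ e1.symm.surjective).comp
        ((frob_injective 1).comp e1.symm.injective)
    · exact (Dmap_surjective _ e1.symm.injective).comp
        ((frob_bijective 1).2.comp e1.symm.surjective)
  exact injective_congr (LinearEquiv.ofBijective f hf).symm

instance (n : ℕ) : Module.Injective (A k) (D k (Fin n → A k)) :=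
  injective_congr (frobEquiv n)

instance (n : ℕ) : Module.Projective (A k) (D k (Fin n → A k)) :=
  Module.Projective.of_equiv (frobEquiv n)

end Pool.Agent.ExtGap
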