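import Mathlib

set_option autoImplicit false
open CategoryTheory

namespace Pool.Agent.ExtGap

variable {R : Type} [CommRing R]

/-- Vanishing of the `n`-th extension group of two modules. -/
def EV (R : Type) [CommRing R] (n : ℕ) (M N : Type) [AddCommGroup M] [Module R M]
    [AddCommGroup N] [Module R N] : Prop :=
  Subsingleton (Abelian.Ext (ModuleCat.of R M) (ModuleCat.of R N) n : Type)

variable {M M' N N' K P I Q : Type}
  [AddCommGroup M] [Module R M] [AddCommGroup M'] [Module R M']
  [AddCommGroup N] [Module R N] [AddCommGroup N'] [Module R N']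
  [AddCommGroup K] [Module R K] [AddCommGroup P] [Module R P]
  [AddCommGroup I] [Module R I] [AddCommGroup Q] [Module R Q]

theorem EV_congr_left (e : M ≃ₗ[R] M') (n : ℕ) (h : EV R n M N) : EV R n M' N := by
  unfold EV at *
  refine subsingleton_of_forall_eq 0 fun x => ?_
  have hx : (Abelian.Ext.mk₀ (ModuleCat.ofHom e.symm.toLinearMap)).comp
      ((Abelian.Ext.mk₀ (ModuleCat.ofHom e.toLinearMap)).comp x (zero_add n)) (zero_add n) = x := by
    rw [Abelian.Ext.mk₀_comp_mk₀_assoc]
    rw [← ModuleCat.ofHom_comp]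
    have : (e.toLinearMap ∘ₗ e.symm.toLinearMap) = LinearMap.id := by ext; simp
    rw [this]
    exact Abelian.Ext.mk₀_id_comp x
  rw [← hx, Subsingleton.elim ((Abelian.Ext.mk₀ (ModuleCat.ofHom e.toLinearMap)).comp x (zero_add n)) 0,
    Abelian.Ext.comp_zero]

theorem EV_congr_right (e : N ≃ₗ[R] N') (n : ℕ) (h : EV R n M N) : EV R n M N' := by
  unfold EV at *
  refine subsingleton_of_forall_eq 0 fun x => ?_
  have hx : (x.comp (Abelian.Ext.mk₀ (ModuleCat.ofHom e.symm.toLinearMap)) (add_zero n)).comp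
      (Abelian.Ext.mk₀ (ModuleCat.ofHom e.toLinearMap)) (add_zero n) = x := by
    rw [Abelian.Ext.comp_assoc_of_second_deg_zero]
    rw [Abelian.Ext.mk₀_comp_mk₀]
    rw [← ModuleCat.ofHom_comp]
    have : (e.toLinearMap ∘ₗ e.symm.toLinearMap) = LinearMap.id := by ext; simp
    rw [this]
    exact Abelian.Ext.comp_mk₀_id x
  rw [← hx, Subsingleton.elim (x.comp (Abelian.Ext.mk₀ (ModuleCat.ofHom e.symm.toLinearMap)) (add_zero n)) 0,
    Abelian.Ext.zero_comp]

theorem EV_congr_left_iff (e : M ≃ₗ[R] M') (n : ℕ) : EV R n M N ↔ EV R n M' N :=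
  ⟨EV_congr_left e n, EV_congr_left e.symm n⟩

theorem EV_congr_right_iff (e : N ≃ₗ[R] N') (n : ℕ) : EV R n M N ↔ EV R n M N' :=
  ⟨EV_congr_right e n, EV_congr_right e.symm n⟩

/-- The short complex attached to two linear maps. -/
def sc (f : K →ₗ[R] P) (g : P →ₗ[R] M) (hfg : Function.Exact f g) :
    ShortComplex (ModuleCat.{0} R) :=
  ShortComplex.mk (ModuleCat.ofHom f) (ModuleCat.ofHom g) (by
    ext x
    exact hfg.apply_apply_eq_zero x)

theorem sc_shortExact (f : K →ₗ[R] P) (g : P →ₗ[R] M) (hf : Function.Injective f)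
    (hg : Function.Surjective g) (hfg : Function.Exact f g) : (sc f g hfg).ShortExact where
  exact := (ShortComplex.ShortExact.moduleCat_exact_iff_function_exact _).mpr hfg
  mono_f := (ModuleCat.mono_iff_injective _).mpr hf
  epi_g := (ModuleCat.epi_iff_surjective _).mpr hg

theorem shift_left (f : K →ₗ[R] P) (g : P →ₗ[R] M) (hf : Function.Injective f)
    (hg : Function.Surjective g) (hfg : Function.Exact f g) [Module.Projective R P] (n : ℕ) :
    EV R (n + 2) M N ↔ EV R (n + 1) K N := by
  have hS := sc_shortExact f g hf hg hfg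
  have : Projective (sc f g hfg).X₂ := by
    change Projective (ModuleCat.of R P)
    infer_instance
  constructor
  · intro h
    unfold EV at *
    refine subsingleton_of_forall_eq 0 fun x => ?_
    obtain ⟨x₂, hx₂⟩ := Abelian.Ext.contravariant_sequence_exact₁ hS (ModuleCat.of R N)
      (n₀ := n + 1) x (n₁ := n + 2) (by omega) (Subsingleton.elim (h := h) _ _)
    rw [← hx₂, Abelian.Ext.eq_zero_of_projective x₂, Abelian.Ext.comp_zero]
    rfl
  · intro h
    unfold EV at *
    refine subsingleton_of_forall_eq 0 fun x => ?_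
    obtain ⟨x₁, hx₁⟩ := Abelian.Ext.contravariant_sequence_exact₃ hS (ModuleCat.of R N)
      (n₁ := n + 2) x (Abelian.Ext.eq_zero_of_projective _) (n₀ := n + 1) (by omega)
    rw [← hx₁]
    have : x₁ = 0 := Subsingleton.elim (h := h) _ _
    rw [this, Abelian.Ext.comp_zero]
    rfl

theorem shift_right (f : N →ₗ[R] I) (g : I →ₗ[R] Q) (hf : Function.Injective f)
    (hg : Function.Surjective g) (hfg : Function.Exact f g) [Module.Injective R I] (n : ℕ) :
    EV R (n + 2) M N ↔ EV R (n + 1) M Q := by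
  have hS := sc_shortExact f g hf hg hfg
  have : Injective (sc f g hfg).X₂ := by
    change Injective (ModuleCat.of R I)
    exact Module.injective_object_of_injective_module R I
  constructor
  · intro h
    unfold EV at *
    refine subsingleton_of_forall_eq 0 fun x => ?_
    obtain ⟨x₂, hx₂⟩ := Abelian.Ext.covariant_sequence_exact₃ (ModuleCat.of R M) hS
      (n₀ := n + 1) x (n₁ := n + 2) (by omega) (Subsingleton.elim (h := h) _ _)
    rw [← hx₂, Abelian.Ext.eq_zero_of_injective x₂, Abelian.Ext.zero_comp]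
    rfl
  · intro h
    unfold EV at *
    refine subsingleton_of_forall_eq 0 fun x => ?_
    obtain ⟨x₁, hx₁⟩ := Abelian.Ext.covariant_sequence_exact₁ (ModuleCat.of R M) hS
      (n₁ := n + 2) x (Abelian.Ext.eq_zero_of_injective _) (n₀ := n + 1) (by omega)
    rw [← hx₁]
    have : x₁ = 0 := Subsingleton.elim (h := h) _ _
    rw [this, Abelian.Ext.zero_comp]
    rfl

theorem ext_one_iff (f : K →ₗ[R] P) (g : P →ₗ[R] M) (hf : Function.Injective f)
    (hg : Function.Surjective g) (hfg : Function.Exact f g) [Module.Projective R P] :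
    EV R 1 M N ↔ ∀ φ : K →ₗ[R] N, ∃ ψ : P →ₗ[R] N, ψ ∘ₗ f = φ := by
  have hS := sc_shortExact f g hf hg hfg
  have : Projective (sc f g hfg).X₂ := by
    change Projective (ModuleCat.of R P)
    infer_instance
  constructor
  · intro h φ
    unfold EV at *
    obtain ⟨x₂, hx₂⟩ := Abelian.Ext.contravariant_sequence_exact₁ hS (ModuleCat.of R N)
      (n₀ := 0) (Abelian.Ext.mk₀ (ModuleCat.ofHom φ)) (n₁ := 1) (by omega)
      (Subsingleton.elim (h := h) _ _)
    obtain ⟨ψ, rfl⟩ := (Abelian.Ext.mk₀_bijective _ _).2 x₂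
    rw [Abelian.Ext.mk₀_comp_mk₀] at hx₂
    have h3 := (Abelian.Ext.mk₀_bijective _ _).1 hx₂
    refine ⟨ψ.hom, ?_⟩
    have h4 := congrArg ModuleCat.Hom.hom h3
    exact h4
  · intro h
    unfold EV at *
    refine subsingleton_of_forall_eq 0 fun x => ?_
    obtain ⟨x₁, hx₁⟩ := Abelian.Ext.contravariant_sequence_exact₃ hS (ModuleCat.of R N)
      (n₁ := 1) x (Abelian.Ext.eq_zero_of_projective _) (n₀ := 0) (by omega)
    obtain ⟨φ, rfl⟩ := (Abelian.Ext.mk₀_bijective _ _).2 x₁
    obtain ⟨ψ, hψ⟩ := h φ.hom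
    let ψ' : (sc f g hfg).X₂ ⟶ ModuleCat.of R N := ModuleCat.ofHom ψ
    have h5 : φ = (sc f g hfg).f ≫ ψ' := by
      ext y
      exact (LinearMap.congr_fun hψ y).symm
    have h6 : hS.extClass.comp (Abelian.Ext.mk₀ φ) (add_zero 1) = 0 := by
      rw [h5, ← Abelian.Ext.mk₀_comp_mk₀]
      exact hS.extClass_comp_assoc _
    rw [← hx₁]
    exact h6

end Pool.Agent.ExtGap
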