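import Mathlib
import Pool.Agent.ExtGap.Ring
import Pool.Agent.ExtGap.Shift
import Pool.Agent.ExtGap.Dual

set_option autoImplicit false

namespace Pool.Agent.ExtGap

variable {k : Type} [Field k]

/-- A minimal cover of a finite module by a free module. -/
theorem exists_min_cover (X : Type) [AddCommGroup X] [Module (A k) X] [Module.Finite (A k) X] :
    ∃ (n : ℕ) (f : (Fin n → A k) →ₗ[A k] X), Function.Surjective f ∧
      ∀ x ∈ LinearMap.ker f, ∀ j, (x j) 0 = 0 := by
  classical
  have hex : ∃ n : ℕ, ∃ f : (Fin n → A k) →ₗ[A k] X, Function.Surjective f :=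
    Module.Finite.exists_fin' (A k) X
  obtain ⟨f, hf⟩ := Nat.find_spec hex
  have hmin : ∀ m < Nat.find hex, ¬ ∃ f : (Fin m → A k) →ₗ[A k] X, Function.Surjective f :=
    fun m hm => Nat.find_min hex hm
  generalize Nat.find hex = n at f hf hmin
  refine ⟨n, f, hf, ?_⟩
  intro x hx j
  by_contra hne
  cases n with
  | zero => exact j.elim0
  | succ n =>
    apply hmin n (Nat.lt_succ_self n)
    have hu : IsUnit (x j) := (A.isUnit_iff _).mpr hne
    obtain ⟨u, hu⟩ := hu
    -- inclusion of the other coordinates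
    let ι : (Fin n → A k) →ₗ[A k] (Fin (n + 1) → A k) :=
      LinearMap.pi (fun i => if h : ∃ i', j.succAbove i' = i then LinearMap.proj h.choose else 0)
    refine ⟨f ∘ₗ ι, ?_⟩
    intro y
    obtain ⟨v, rfl⟩ := hf y
    -- subtract a multiple of x to kill the j-th coordinate
    let v' : Fin (n + 1) → A k := v - (v j * (↑u⁻¹ : A k)) • x
    have hv'j : v' j = 0 := by
      simp only [v', Pi.sub_apply, Pi.smul_apply, smul_eq_mul, ← hu]
      rw [mul_assoc, Units.inv_mul, mul_one, sub_self]
    have hfv : f v' = f v := by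
      have hx0 : f x = 0 := hx
      simp only [v', map_sub, map_smul, hx0, smul_zero, sub_zero]
    refine ⟨fun i => v' (j.succAbove i), ?_⟩
    rw [← hfv, LinearMap.comp_apply]
    congr 1
    funext i
    by_cases hi : ∃ i', j.succAbove i' = i
    · simp only [ι, LinearMap.pi_apply, dif_pos hi, LinearMap.proj_apply, hi.choose_spec]
    · have : i = j := by
        by_contra hij
        exact hi (Fin.exists_succAbove_eq hij)
      simp only [ι, LinearMap.pi_apply, dif_neg hi, LinearMap.zero_apply]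
      rw [this, hv'j]

/-- A minimal free resolution of a module, recorded as a sequence of submodules of free modules. -/
structure MinRes (k : Type) [Field k] (X : Type) [AddCommGroup X] [Module (A k) X] where
  n : ℕ → ℕ
  K : (i : ℕ) → Submodule (A k) (Fin (n i) → A k)
  f0 : (Fin (n 0) → A k) →ₗ[A k] X
  f0_surj : Function.Surjective f0
  f0_ker : LinearMap.ker f0 = K 0
  f : (i : ℕ) → (Fin (n (i + 1)) → A k) →ₗ[A k] (Fin (n i) → A k)
  f_range : ∀ i, LinearMap.range (f i) = K i
  f_ker : ∀ i, LinearMap.ker (f i) = K (i + 1)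
  small : ∀ i, ∀ x ∈ K i, ∀ j, (x j) 0 = 0

/-- One step of the resolution. -/
theorem exists_step (n : ℕ) (K : Submodule (A k) (Fin n → A k)) :
    ∃ (m : ℕ) (K' : Submodule (A k) (Fin m → A k)) (f : (Fin m → A k) →ₗ[A k] (Fin n → A k)),
      LinearMap.range f = K ∧ LinearMap.ker f = K' ∧ ∀ x ∈ K', ∀ j, (x j) 0 = 0 := by
  obtain ⟨m, f, hf, hk⟩ := exists_min_cover (k := k) K
  refine ⟨m, LinearMap.ker f, K.subtype ∘ₗ f, ?_, ?_, hk⟩
  · rw [LinearMap.range_comp, LinearMap.range_eq_top.mpr hf, Submodule.map_top,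
      Submodule.range_subtype]
  · rw [LinearMap.ker_comp_of_ker_eq_bot]
    exact Submodule.ker_subtype K

theorem exists_minRes (X : Type) [AddCommGroup X] [Module (A k) X] [Module.Finite (A k) X] :
    Nonempty (MinRes k X) := by
  obtain ⟨n0, f0, hf0, hk0⟩ := exists_min_cover (k := k) X
  choose m K' f hr hk hs using exists_step (k := k)
  let S : ℕ → Σ n : ℕ, Submodule (A k) (Fin n → A k) := fun i =>
    Nat.rec ⟨n0, LinearMap.ker f0⟩ (fun _ s => ⟨m s.1 s.2, K' s.1 s.2⟩) i
  refine ⟨{ n := fun i => (S i).1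
            K := fun i => (S i).2
            f0 := f0
            f0_surj := hf0
            f0_ker := rfl
            f := fun i => f (S i).1 (S i).2
            f_range := fun i => hr _ _
            f_ker := fun i => hk _ _
            small := ?_ }⟩
  intro i
  cases i with
  | zero => exact hk0
  | succ i => exact hs _ _

namespace MinRes

variable {X : Type} [AddCommGroup X] [Module (A k) X] (ρ : MinRes k X)

/-- The cover of the `i`-th syzygy. -/
def g (i : ℕ) : (Fin (ρ.n (i + 1)) → A k) →ₗ[A k] ρ.K i :=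
  (ρ.f i).codRestrict (ρ.K i) (fun x => by rw [← ρ.f_range i]; exact ⟨x, rfl⟩)

theorem g_surj (i : ℕ) : Function.Surjective (ρ.g i) := by
  rintro ⟨y, hy⟩
  rw [← ρ.f_range i] at hy
  obtain ⟨x, rfl⟩ := hy
  exact ⟨x, rfl⟩

theorem g_exact (i : ℕ) : Function.Exact (ρ.K (i + 1)).subtype (ρ.g i) := by
  intro x
  constructor
  · intro hx
    have : ρ.f i x = 0 := congrArg Subtype.val hx
    have h2 : x ∈ ρ.K (i + 1) := by
      rw [← ρ.f_ker i]
      exact this
    exact ⟨⟨x, h2⟩, rfl⟩
  · rintro ⟨⟨y, hy⟩, rfl⟩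
    rw [← ρ.f_ker i] at hy
    exact Subtype.ext hy

theorem f0_exact : Function.Exact (ρ.K 0).subtype ρ.f0 := by
  intro x
  constructor
  · intro hx
    have h2 : x ∈ ρ.K 0 := by
      rw [← ρ.f0_ker]
      exact hx
    exact ⟨⟨x, h2⟩, rfl⟩
  · rintro ⟨⟨y, hy⟩, rfl⟩
    rw [← ρ.f0_ker] at hy
    exact hy

variable {N : Type} [AddCommGroup N] [Module (A k) N]

/-- Dimension shifting in the first variable. -/
theorem shift_left (i j : ℕ) : EV (A k) (j + i + 2) X N ↔ EV (A k) (j + 1) (ρ.K i) N := by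
  induction i generalizing j with
  | zero =>
    exact Pool.Agent.ExtGap.shift_left (ρ.K 0).subtype ρ.f0 (Submodule.injective_subtype _)
      ρ.f0_surj ρ.f0_exact j
  | succ i ih =>
    have h1 := ih (j + 1)
    have h2 := Pool.Agent.ExtGap.shift_left (N := N) (ρ.K (i + 1)).subtype (ρ.g i)
      (Submodule.injective_subtype _) (ρ.g_surj i) (ρ.g_exact i) j
    rw [← h2, show j + (i + 1) + 2 = j + 1 + i + 2 by ring]
    exact h1

/-- Dimension shifting in the second variable, free modules being injective. -/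
theorem shift_right (i j : ℕ) : EV (A k) (j + i + 2) N (ρ.K i) ↔ EV (A k) (j + 1) N X := by
  induction i generalizing j with
  | zero =>
    exact Pool.Agent.ExtGap.shift_right (ρ.K 0).subtype ρ.f0 (Submodule.injective_subtype _)
      ρ.f0_surj ρ.f0_exact j
  | succ i ih =>
    have h1 := ih j
    have h2 := Pool.Agent.ExtGap.shift_right (M := N) (ρ.K (i + 1)).subtype (ρ.g i)
      (Submodule.injective_subtype _) (ρ.g_surj i) (ρ.g_exact i) (j + i + 1)
    rw [← h1, show j + (i + 1) + 2 = j + i + 1 + 2 by ring]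
    exact h2

/-- Vanishing of the first extension group means that homomorphisms extend. -/
theorem extend (i : ℕ) (h : EV (A k) 1 (ρ.K i) N) (φ : ρ.K (i + 1) →ₗ[A k] N) :
    ∃ ψ : (Fin (ρ.n (i + 1)) → A k) →ₗ[A k] N, ∀ x : ρ.K (i + 1), ψ x = φ x := by
  obtain ⟨ψ, hψ⟩ := (ext_one_iff (ρ.K (i + 1)).subtype (ρ.g i)
    (Submodule.injective_subtype _) (ρ.g_surj i) (ρ.g_exact i)).mp h φ
  exact ⟨ψ, fun x => LinearMap.congr_fun hψ x⟩

variable [Module k X] [IsScalarTower k (A k) X]

/-- Dual dimension shifting in the second variable. -/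
theorem shift_dual_right (i j : ℕ) :
    EV (A k) (j + i + 2) N (D k X) ↔ EV (A k) (j + 1) N (D k (ρ.K i)) := by
  induction i generalizing j with
  | zero =>
    exact Pool.Agent.ExtGap.shift_right (Dmap ρ.f0) (Dmap (ρ.K 0).subtype)
      (Dmap_injective _ ρ.f0_surj) (Dmap_surjective _ (Submodule.injective_subtype _))
      (Dmap_exact _ _ ρ.f0_surj ρ.f0_exact) j
  | succ i ih =>
    have h1 := ih (j + 1)
    have h2 := Pool.Agent.ExtGap.shift_right (M := N) (Dmap (ρ.g i))
      (Dmap (ρ.K (i + 1)).subtype)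
      (Dmap_injective _ (ρ.g_surj i)) (Dmap_surjective _ (Submodule.injective_subtype _))
      (Dmap_exact _ _ (ρ.g_surj i) (ρ.g_exact i)) j
    rw [← h2, show j + (i + 1) + 2 = j + 1 + i + 2 by ring]
    exact h1

/-- Dual dimension shifting in the first variable, duals of free modules being projective. -/
theorem shift_dual_left (i j : ℕ) :
    EV (A k) (j + i + 2) (D k (ρ.K i)) N ↔ EV (A k) (j + 1) (D k X) N := by
  induction i generalizing j with
  | zero =>
    exact Pool.Agent.ExtGap.shift_left (Dmap ρ.f0) (Dmap (ρ.K 0).subtype)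
      (Dmap_injective _ ρ.f0_surj) (Dmap_surjective _ (Submodule.injective_subtype _))
      (Dmap_exact _ _ ρ.f0_surj ρ.f0_exact) j
  | succ i ih =>
    have h1 := ih j
    have h2 := Pool.Agent.ExtGap.shift_left (N := N) (Dmap (ρ.g i))
      (Dmap (ρ.K (i + 1)).subtype)
      (Dmap_injective _ (ρ.g_surj i)) (Dmap_surjective _ (Submodule.injective_subtype _))
      (Dmap_exact _ _ (ρ.g_surj i) (ρ.g_exact i)) (j + i + 1)
    rw [← h1, show j + (i + 1) + 2 = j + i + 1 + 2 by ring]
    exact h2

end MinRes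

end Pool.Agent.ExtGap
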