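import Mathlib
import Pool.Agent.ExtGap.Res

set_option autoImplicit false

namespace Pool.Agent.ExtGap

variable {k : Type} [Field k]

/-- Dimension over the ground field of a submodule of a free module. -/
noncomputable def d {n : ℕ} (K : Submodule (A k) (Fin n → A k)) : ℕ :=
  Module.finrank k (K.restrictScalars k)

theorem d_mono {n : ℕ} {K L : Submodule (A k) (Fin n → A k)} (h : K ≤ L) : d K ≤ d L :=
  Submodule.finrank_mono (s := K.restrictScalars k) (t := L.restrictScalars k) h

theorem d_sup_inf {n : ℕ} (K L : Submodule (A k) (Fin n → A k)) :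
    d (K ⊔ L) + d (K ⊓ L) = d K + d L := by
  unfold d
  rw [Submodule.restrictScalars_sup, Submodule.restrictScalars_inf]
  exact Submodule.finrank_sup_add_finrank_inf_eq _ _

theorem finrank_map_add {V W : Type} [AddCommGroup V] [Module k V] [AddCommGroup W] [Module k W]
    [Module.Finite k V] (f : V →ₗ[k] W) (U : Submodule k V) :
    Module.finrank k (U.map f) + Module.finrank k (U ⊓ LinearMap.ker f : Submodule k V) =
      Module.finrank k U := by
  have h := LinearMap.finrank_range_add_finrank_ker (f.domRestrict U)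
  have h1 : LinearMap.range (f.domRestrict U) = U.map f := by
    ext y
    simp
  have h2 : Module.finrank k (LinearMap.ker (f.domRestrict U)) =
      Module.finrank k (U ⊓ LinearMap.ker f : Submodule k V) := by
    have : (LinearMap.ker (f.domRestrict U)).map U.subtype = U ⊓ LinearMap.ker f := by
      ext y
      simp
      constructor
      · rintro ⟨h, h'⟩
        exact ⟨h', h⟩
      · rintro ⟨h, h'⟩
        exact ⟨h', h⟩
    rw [← this]
    exact (Submodule.finrank_map_subtype_eq U _).symm
  rw [h1, h2] at h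
  exact h

theorem d_map {n n' : ℕ} (f : (Fin n → A k) →ₗ[A k] (Fin n' → A k))
    (K : Submodule (A k) (Fin n → A k)) :
    d (K.map f) + d (K ⊓ LinearMap.ker f) = d K :=
  finrank_map_add (f.restrictScalars k) (K.restrictScalars k)

theorem d_top (n : ℕ) : d (⊤ : Submodule (A k) (Fin n → A k)) = 12 * n := by
  unfold d
  have : (⊤ : Submodule (A k) (Fin n → A k)).restrictScalars k = ⊤ := rfl
  rw [this, finrank_top, Module.finrank_pi_fintype]
  simp [A.finrank_eq, mul_comm]

/-- The submodule of vectors with coordinates in the ideal generated by `a` and `m ^ 2`. -/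
def JF (k : Type) [Field k] (n : ℕ) : Submodule (A k) (Fin n → A k) where
  carrier := {x | ∀ i, (x i) 0 = 0 ∧ (x i) 1 = (x i) 2 ∧ (x i) 3 = 0 ∧ (x i) 4 = 0 ∧ (x i) 5 = 0}
  add_mem' := by
    intro x y hx hy i
    obtain ⟨h0, h1, h3, h4, h5⟩ := hx i
    obtain ⟨g0, g1, g3, g4, g5⟩ := hy i
    simp [h0, h1, h3, h4, h5, g0, g1, g3, g4, g5]
  zero_mem' := by
    intro i
    simp
  smul_mem' := by
    intro c x hx i
    obtain ⟨h0, h1, h3, h4, h5⟩ := hx i
    simp [h0, h1, h3, h4, h5]

/-- Coordinates on `JF`. -/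
def coordJ (k : Type) [Field k] (n : ℕ) :
    ((JF k n).restrictScalars k) →ₗ[k] (Fin n → Fin 7 → k) where
  toFun x := fun i => ![(x.1 i) 1, (x.1 i) 6, (x.1 i) 7, (x.1 i) 8, (x.1 i) 9, (x.1 i) 10,
    (x.1 i) 11]
  map_add' x y := by
    funext i j
    fin_cases j <;> simp
  map_smul' c x := by
    funext i j
    fin_cases j <;> simp

theorem d_JF (n : ℕ) : d (JF k n) ≤ 7 * n := by
  have hinj : Function.Injective (coordJ k n) := by
    rw [← LinearMap.ker_eq_bot, eq_bot_iff]
    intro x hx
    rw [LinearMap.mem_ker] at hx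
    rw [Submodule.mem_bot]
    apply Subtype.ext
    funext i
    obtain ⟨h0, h1, h3, h4, h5⟩ := x.2 i
    have hxi : ∀ j, coordJ k n x i j = 0 := fun j => by rw [hx]; rfl
    have e1 := hxi 0
    have e6 := hxi 1
    have e7 := hxi 2
    have e8 := hxi 3
    have e9 := hxi 4
    have e10 := hxi 5
    have e11 := hxi 6
    simp [coordJ] at e1 e6 e7 e8 e9 e10 e11
    apply A.ext12
    · exact h0
    · exact e1
    · exact (h1.symm.trans e1)
    · exact h3
    · exact h4
    · exact h5
    · exact e6
    · exact e7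
    · exact e8
    · exact e9
    · exact e10
    · exact e11
  have h := LinearMap.finrank_le_finrank_of_injective hinj
  have h2 : Module.finrank k (Fin n → Fin 7 → k) = 7 * n := by
    rw [Module.finrank_pi_fintype]
    simp [mul_comm]
  rw [h2] at h
  exact h

/-- Multiplication by the exact zero divisor. -/
def μa (k : Type) [Field k] (n : ℕ) : (Fin n → A k) →ₗ[A k] (Fin n → A k) :=
  LinearMap.lsmul (A k) (Fin n → A k) A.a

@[simp] theorem μa_apply (n : ℕ) (x : Fin n → A k) : μa k n x = (A.a : A k) • x := rfl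

/-- The maximal ideal. -/
noncomputable abbrev 𝔪 (k : Type) [Field k] : Ideal (A k) := IsLocalRing.maximalIdeal (A k)

section char2
variable [CharP k 2]

theorem range_μa (n : ℕ) : LinearMap.range (μa k n) = LinearMap.ker (μa k n) := by
  ext x
  constructor
  · rintro ⟨y, rfl⟩
    rw [LinearMap.mem_ker, μa_apply, μa_apply, smul_smul, A.a_mul_a, zero_smul]
  · intro hx
    have : ∀ i, ∃ y, x i = A.a * y := by
      intro i
      apply A.exists_of_a_mul
      exact congrFun hx i
    choose y hy using this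
    exact ⟨y, by funext i; simp [hy]⟩

theorem d_range_μa (n : ℕ) : d (LinearMap.range (μa k n)) = 6 * n := by
  have h := d_map (μa k n) ⊤
  rw [Submodule.map_top, top_inf_eq, ← range_μa, d_top] at h
  omega

/-- Dimension count for multiplication by `a` on a submodule. -/
theorem d_mul_a {n : ℕ} (K : Submodule (A k) (Fin n → A k)) :
    d (K.map (μa k n)) + d (K ⊓ LinearMap.range (μa k n)) = d K := by
  rw [range_μa]
  exact d_map _ _

/-- The setting of one step of a minimal resolution. -/
structure Step (k : Type) [Field k] where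
  n : ℕ
  n' : ℕ
  K : Submodule (A k) (Fin n → A k)
  K' : Submodule (A k) (Fin n' → A k)
  f : (Fin n' → A k) →ₗ[A k] (Fin n → A k)
  range_f : LinearMap.range f = K
  ker_f : LinearMap.ker f = K'
  small : ∀ x ∈ K, ∀ j, (x j) 0 = 0
  small' : ∀ x ∈ K', ∀ j, (x j) 0 = 0

variable (S : Step k)

theorem mem_JF_of_small {n : ℕ} (K : Submodule (A k) (Fin n → A k))
    (h : ∀ x ∈ K, ∀ j, (x j) 0 = 0) : 𝔪 k • K ≤ JF k n := by
  rw [Submodule.smul_le]
  intro r hr x hx i
  rw [A.mem_maximalIdeal] at hr
  have hx' := h x hx i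
  simp [hr, hx']

theorem range_a_le_JF (n : ℕ) : LinearMap.range (μa k n) ≤ JF k n := by
  rintro _ ⟨x, rfl⟩ i
  simp

theorem dim_step : d S.K + d S.K' = 12 * S.n' := by
  have h := d_map S.f ⊤
  rw [Submodule.map_top, S.range_f, top_inf_eq, S.ker_f, d_top] at h
  exact h

/-- First inequality. -/
theorem ineq1 : d (𝔪 k • S.K') + d (S.K.map (μa k S.n)) ≤ 7 * S.n' := by
  have h := d_map S.f (JF k S.n')
  have h1 : S.K.map (μa k S.n) ≤ (JF k S.n').map S.f := by
    rw [← S.range_f]
    rintro _ ⟨_, ⟨x, rfl⟩, rfl⟩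
    refine ⟨(A.a : A k) • x, range_a_le_JF _ ⟨x, rfl⟩, ?_⟩
    rw [map_smul]
    rfl
  have h2 : 𝔪 k • S.K' ≤ JF k S.n' ⊓ LinearMap.ker S.f := by
    refine le_inf (mem_JF_of_small _ S.small') ?_
    rw [S.ker_f]
    exact Submodule.smul_le_right
  have := d_mono h1
  have := d_mono h2
  have := d_JF (k := k) S.n'
  omega

/-- Second inequality. -/
theorem ineq2 : d (𝔪 k • S.K) + d (S.K.map (μa k S.n)) ≤ S.n + d S.K := by
  have h1 : (𝔪 k • S.K) ⊔ LinearMap.range (μa k S.n) ≤ JF k S.n :=
    sup_le (mem_JF_of_small _ S.small) (range_a_le_JF _)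
  have h2 := d_sup_inf (𝔪 k • S.K) (LinearMap.range (μa k S.n))
  have h3 : (𝔪 k • S.K) ⊓ LinearMap.range (μa k S.n) ≤ S.K ⊓ LinearMap.range (μa k S.n) :=
    inf_le_inf_right _ Submodule.smul_le_right
  have := d_mono h1
  have := d_mono h3
  have := d_JF (k := k) S.n
  have := d_range_μa (k := k) S.n
  have := d_mul_a S.K
  omega

/-- The vector of constant coefficients. -/
def ev0 (k : Type) [Field k] (n : ℕ) : (Fin n → A k) →ₗ[k] (Fin n → k) where
  toFun x := fun i => (x i) 0
  map_add' _ _ := rfl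
  map_smul' _ _ := rfl

theorem mem_small_iff (n : ℕ) (x : Fin n → A k) :
    x ∈ 𝔪 k • (⊤ : Submodule (A k) (Fin n → A k)) ↔ ∀ j, (x j) 0 = 0 := by
  constructor
  · intro hx
    refine Submodule.smul_induction_on hx ?_ ?_
    · intro r hr y _ j
      rw [A.mem_maximalIdeal] at hr
      simp [hr]
    · intro y z hy hz j
      simp [hy j, hz j]
  · intro h
    have : x = ∑ j, (x j) • (Pi.single j 1 : Fin n → A k) := by
      funext i
      rw [Finset.sum_apply, Finset.sum_eq_single i]
      · simp
      · intro j _ hj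
        simp [hj.symm]
      · simp
    rw [this]
    refine Submodule.sum_mem _ fun j _ => Submodule.smul_mem_smul ?_ trivial
    rw [A.mem_maximalIdeal]
    exact h j

/-- The vectors with entries in the maximal ideal. -/
theorem d_small_top (n : ℕ) : d (𝔪 k • (⊤ : Submodule (A k) (Fin n → A k))) = 11 * n := by
  have h1 : LinearMap.ker (ev0 k n) =
      (𝔪 k • (⊤ : Submodule (A k) (Fin n → A k))).restrictScalars k := by
    ext x
    rw [LinearMap.mem_ker, Submodule.restrictScalars_mem, mem_small_iff]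
    exact ⟨fun h j => congrFun h j, fun h => funext h⟩
  have h2 : Function.Surjective (ev0 k n) := by
    intro v
    exact ⟨fun i => A.mk ![v i, 0, 0, 0, 0, 0, 0, 0, 0, 0, 0, 0], rfl⟩
  have h3 := LinearMap.finrank_range_add_finrank_ker (ev0 k n)
  rw [LinearMap.range_eq_top.mpr h2, finrank_top, h1] at h3
  have h4 : Module.finrank k (Fin n → A k) = 12 * n := by
    rw [Module.finrank_pi_fintype]
    simp [A.finrank_eq, mul_comm]
  rw [h4, Module.finrank_fin_fun] at h3
  unfold d
  omega

/-- The number of generators. -/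
theorem gens : d S.K = S.n' + d (𝔪 k • S.K) := by
  have h1 := d_map S.f (𝔪 k • ⊤)
  have h2 : (𝔪 k • (⊤ : Submodule (A k) (Fin S.n' → A k))).map S.f = 𝔪 k • S.K := by
    rw [Submodule.map_smul'', Submodule.map_top, S.range_f]
  have h3 : (𝔪 k • (⊤ : Submodule (A k) (Fin S.n' → A k))) ⊓ LinearMap.ker S.f = S.K' := by
    rw [S.ker_f, inf_eq_right]
    intro x hx
    rw [mem_small_iff]
    exact S.small' x hx
  rw [h2, h3, d_small_top] at h1
  have := dim_step S
  omega

/-- The defect is constant along a minimal resolution. -/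
theorem defect : d S.K' + 2 * d (S.K.map (μa k S.n)) =
    d S.K + 2 * d (S.K'.map (μa k S.n')) := by
  have h1 := d_map S.f (LinearMap.range (μa k S.n'))
  have h2 : (LinearMap.range (μa k S.n')).map S.f = S.K.map (μa k S.n) := by
    rw [← S.range_f]
    ext x
    constructor
    · rintro ⟨_, ⟨y, rfl⟩, rfl⟩
      exact ⟨S.f y, ⟨y, rfl⟩, by rw [μa_apply, μa_apply, map_smul]⟩
    · rintro ⟨_, ⟨y, rfl⟩, rfl⟩
      exact ⟨μa k S.n' y, ⟨y, rfl⟩, by rw [μa_apply, μa_apply, map_smul]⟩
  have h3 := d_mul_a S.K'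
  rw [h2, S.ker_f, inf_comm] at h1
  have := d_range_μa (k := k) S.n'
  have := dim_step S
  omega

end char2

end Pool.Agent.ExtGap
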