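import Mathlib
import Pool.Agent.ExtGap.Growth

set_option autoImplicit false

namespace Pool.Agent.ExtGap

variable {k : Type} [Field k]

section
variable {n s : ℕ} (K : Submodule (A k) (Fin n → A k)) (L : Submodule (A k) (Fin s → A k))

/-- The radical quotient of a submodule. -/
abbrev Top (K : Submodule (A k) (Fin n → A k)) : Type :=
  (K.restrictScalars k) ⧸ ((𝔪 k • K).restrictScalars k).submoduleOf (K.restrictScalars k)

theorem finrank_Top (p : ℕ) (hp : d K = p + d (𝔪 k • K)) : Module.finrank k (Top K) = p := by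
  have h1 := Submodule.finrank_quotient_add_finrank
    (((𝔪 k • K).restrictScalars k).submoduleOf (K.restrictScalars k))
  have hle : (𝔪 k • K).restrictScalars k ≤ K.restrictScalars k := Submodule.smul_le_right
  have h2 := (Submodule.submoduleOfEquivOfLe hle).finrank_eq
  rw [h2] at h1
  change Module.finrank k (Top K) + _ = _ at h1
  unfold d at hp
  omega

/-- The products of coordinates, in degrees two and three. -/
noncomputable def prodMap : (K.restrictScalars k) →ₗ[k] (L.restrictScalars k) →ₗ[k]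
    (Fin n → Fin s → Fin 6 → k) :=
  LinearMap.mk₂ k (fun x y => fun i j u => (x.1 i * y.1 j) (Fin.natAdd 6 u))
    (by
      intro x x' y
      funext i j u
      simp [add_mul])
    (by
      intro c x y
      funext i j u
      simp)
    (by
      intro x y y'
      funext i j u
      simp [mul_add])
    (by
      intro c x y
      funext i j u
      simp)

/-- Pulling back functionals along the product map. -/
noncomputable def Φ : ((Fin n → Fin s → Fin 6 → k) →ₗ[k] k) →ₗ[k]
    ((K.restrictScalars k) →ₗ[k] (L.restrictScalars k) →ₗ[k] k) where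
  toFun l := (prodMap K L).compr₂ l
  map_add' _ _ := rfl
  map_smul' _ _ := rfl

/-- Pulling back bilinear forms on the radical quotients. -/
noncomputable def ι : ((Top K) →ₗ[k] (Top L) →ₗ[k] k) →ₗ[k]
    ((K.restrictScalars k) →ₗ[k] (L.restrictScalars k) →ₗ[k] k) where
  toFun φ := φ.compl₁₂ (Submodule.mkQ _) (Submodule.mkQ _)
  map_add' _ _ := rfl
  map_smul' _ _ := rfl

theorem ι_injective : Function.Injective (ι K L) := by
  intro φ φ' hφ
  apply LinearMap.ext
  intro x
  apply LinearMap.ext
  intro y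
  obtain ⟨x, rfl⟩ := Submodule.mkQ_surjective _ x
  obtain ⟨y, rfl⟩ := Submodule.mkQ_surjective _ y
  exact LinearMap.congr_fun (LinearMap.congr_fun hφ x) y

theorem sub_smul_mem (r : A k) (x : Fin n → A k) (hx : x ∈ K) :
    r • x - (r 0) • x ∈ 𝔪 k • K := by
  have : r • x - (r 0) • x = (r - algebraMap k (A k) (r 0)) • x := by
    rw [sub_smul, algebraMap_smul]
  rw [this]
  refine Submodule.smul_mem_smul ?_ hx
  rw [A.mem_maximalIdeal, A.sub_apply, Algebra.algebraMap_eq_smul_one, A.smul_apply, A.one_0]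
  ring

theorem mkQ_smul (r : A k) (x : K.restrictScalars k) :
    (Submodule.mkQ (((𝔪 k • K).restrictScalars k).submoduleOf (K.restrictScalars k))
      ⟨r • x.1, K.smul_mem r x.2⟩) = (r 0) •
    (Submodule.mkQ (((𝔪 k • K).restrictScalars k).submoduleOf (K.restrictScalars k)) x) := by
  rw [← map_smul, ← sub_eq_zero, ← map_sub, Submodule.mkQ_apply, Submodule.Quotient.mk_eq_zero]
  exact sub_smul_mem K r x.1 x.2

/-- The homomorphism attached to a bilinear form on the radical quotients. -/
noncomputable def homOf (φ : (Top K) →ₗ[k] (Top L) →ₗ[k] k) : K →ₗ[A k] D k L where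
  toFun x := (ι K L φ) ⟨x.1, x.2⟩
  map_add' x y := by
    exact map_add (ι K L φ) ⟨x.1, x.2⟩ ⟨y.1, y.2⟩
  map_smul' r x := by
    ext y
    change φ (Submodule.mkQ _ ⟨r • x.1, K.smul_mem r x.2⟩) (Submodule.mkQ _ ⟨y.1, y.2⟩) =
      φ (Submodule.mkQ _ ⟨x.1, x.2⟩) (Submodule.mkQ _ ⟨r • y.1, L.smul_mem r y.2⟩)
    have h1 := mkQ_smul K r ⟨x.1, x.2⟩
    have h2 := mkQ_smul L r ⟨y.1, y.2⟩
    rw [h1, h2, map_smul, map_smul, LinearMap.smul_apply]

/-- The basis vectors of degree at least two. -/
def bas (u : Fin 6) : A k := A.mk (Pi.single (Fin.natAdd 6 u) 1)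

theorem decomp (x : A k) (h0 : x 0 = 0) (h1 : x 1 = 0) (h2 : x 2 = 0) (h3 : x 3 = 0)
    (h4 : x 4 = 0) (h5 : x 5 = 0) : x = ∑ u : Fin 6, (x (Fin.natAdd 6 u)) • bas u := by
  have e0 : Fin.natAdd 6 (0 : Fin 6) = (6 : Fin 12) := rfl
  have e1 : Fin.natAdd 6 (1 : Fin 6) = (7 : Fin 12) := rfl
  have e2 : Fin.natAdd 6 (2 : Fin 6) = (8 : Fin 12) := rfl
  have e3 : Fin.natAdd 6 (3 : Fin 6) = (9 : Fin 12) := rfl
  have e4 : Fin.natAdd 6 (4 : Fin 6) = (10 : Fin 12) := rfl
  have e5 : Fin.natAdd 6 (5 : Fin 6) = (11 : Fin 12) := rfl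
  rw [Fin.sum_univ_six, e0, e1, e2, e3, e4, e5]
  apply A.ext12 <;>
    simp [bas, Pi.single_apply, e0, e1, e2, e3, e4, e5, h0, h1, h2, h3, h4, h5]

theorem lemC (hK : ∀ x ∈ K, ∀ j, (x j) 0 = 0) (hL : ∀ x ∈ L, ∀ j, (x j) 0 = 0)
    (hext : ∀ φ : K →ₗ[A k] D k L, ∃ ψ : (Fin n → A k) →ₗ[A k] D k L, ∀ x : K, ψ x = φ x)
    (p q : ℕ) (hp : d K = p + d (𝔪 k • K)) (hq : d L = q + d (𝔪 k • L)) :
    p * q ≤ 6 * (n * s) := by
  have hrange : LinearMap.range (ι K L) ≤ LinearMap.range (Φ K L) := by
    rintro _ ⟨φ, rfl⟩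
    obtain ⟨ψ, hψ⟩ := hext (homOf K L φ)
    have hμ : ∀ i : Fin n, ∃ μ : D k (Fin s → A k), ∀ y : L, μ y = ψ (Pi.single i 1) y := by
      intro i
      exact exists_extend_of_injective (L.subtype) (Submodule.injective_subtype _)
        (ψ (Pi.single i 1))
    choose μ hμ using hμ
    let l : (Fin n → Fin s → Fin 6 → k) →ₗ[k] k :=
      { toFun := fun c => ∑ i, μ i (fun j => ∑ u, c i j u • bas u)
        map_add' := by
          intro c c'
          rw [← Finset.sum_add_distrib]
          refine Finset.sum_congr rfl fun i _ => ?_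
          rw [← map_add]
          congr 1
          funext j
          simp [add_smul, Finset.sum_add_distrib]
        map_smul' := by
          intro c x
          rw [RingHom.id_apply, smul_eq_mul, Finset.mul_sum]
          refine Finset.sum_congr rfl fun i _ => ?_
          rw [← smul_eq_mul, ← map_smul]
          congr 1
          funext j
          simp [Finset.smul_sum, smul_smul] }
    refine ⟨l, ?_⟩
    apply LinearMap.ext
    intro x
    apply LinearMap.ext
    intro y
    have hx := hK x.1 x.2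
    have hy := hL y.1 y.2
    have key : ∀ i, (fun j => ∑ u, (x.1 i * y.1 j) (Fin.natAdd 6 u) • bas u) = x.1 i • y.1 := by
      intro i
      funext j
      rw [Pi.smul_apply, smul_eq_mul]
      symm
      apply decomp <;> simp [hx i, hy j]
    have e1 : (Φ K L l) x y = ∑ i, μ i (x.1 i • y.1) := by
      change ∑ i, μ i (fun j => ∑ u, (x.1 i * y.1 j) (Fin.natAdd 6 u) • bas u) = _
      exact Finset.sum_congr rfl fun i _ => by rw [key i]
    have e2 : (ι K L φ) x y = homOf K L φ ⟨x.1, x.2⟩ ⟨y.1, y.2⟩ := rfl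
    rw [e1, e2, ← hψ]
    have e3 : (x.1 : Fin n → A k) = ∑ i, (x.1 i) • (Pi.single i 1 : Fin n → A k) := by
      funext i
      rw [Finset.sum_apply, Finset.sum_eq_single i]
      · simp
      · intro j _ hj
        simp [hj.symm]
      · simp
    have e4 : ψ (x.1) = ∑ i, (x.1 i) • ψ (Pi.single i 1) := by
      conv_lhs => rw [e3]
      rw [map_sum]
      simp only [map_smul]
    change _ = ψ (x.1) ⟨y.1, y.2⟩
    rw [e4]
    have e5 : ∀ (g : Fin n → D k L) (y : L), (∑ i, g i) y = ∑ i, (g i) y := by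
      intro g y
      exact LinearMap.sum_apply _ _ _
    rw [e5]
    refine Finset.sum_congr rfl fun i _ => ?_
    rw [D.smul_apply, ← hμ]
    rfl
  have h1 : Module.finrank k (LinearMap.range (ι K L)) = p * q := by
    rw [LinearMap.finrank_range_of_inj (ι_injective K L), Module.finrank_linearMap,
      Module.finrank_linearMap, finrank_Top K p hp, finrank_Top L q hq, Module.finrank_self,
      mul_one]
  have h2 : Module.finrank k (LinearMap.range (Φ K L)) ≤ 6 * (n * s) := by
    refine (LinearMap.finrank_range_le _).trans ?_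
    rw [Module.finrank_linearMap, Module.finrank_self, mul_one, Module.finrank_pi_fintype]
    simp only [Module.finrank_pi_fintype]
    simp
    apply le_of_eq
    ring
  rw [← h1]
  exact (Submodule.finrank_mono hrange).trans h2

end

end Pool.Agent.ExtGap
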