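import Mathlib
import Pool.Agent.ExtGap.Pair

set_option autoImplicit false

namespace Pool.Agent.ExtGap

/-- A sequence satisfying the growth inequality is bounded or grows geometrically. -/
theorem growth_seq (N : ℕ → ℕ) (h : ℕ) (hN : ∀ i, 4 * N (i + 1) ≤ N (i + 2) + N i + h)
    (hunb : ∀ B, ∃ i, B < N i) : ∃ i0, ∀ i ≥ i0, 1 ≤ N i ∧ 5 * N i ≤ 2 * N (i + 1) := by
  classical
  have hex := hunb (max (h + 1) (N 0))
  obtain ⟨i1, hi1, hmin⟩ : ∃ i1, max (h + 1) (N 0) < N i1 ∧ ∀ j < i1, N j ≤ max (h + 1) (N 0) :=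
    ⟨Nat.find hex, Nat.find_spec hex, fun j hj => not_lt.mp (Nat.find_min hex hj)⟩
  have hpos : i1 ≠ 0 := by
    rintro rfl
    exact absurd hi1 (not_lt.mpr (le_max_right _ _))
  obtain ⟨i2, rfl⟩ := Nat.exists_eq_succ_of_ne_zero hpos
  have h0 : N i2 ≤ N (i2 + 1) := (hmin i2 (Nat.lt_succ_self _)).trans hi1.le
  have h1 : h + 1 ≤ N (i2 + 1) := (le_max_left _ _).trans hi1.le
  have key : ∀ j, N (i2 + j) ≤ N (i2 + j + 1) ∧ h + 1 ≤ N (i2 + j + 1) ∧
      2 * N (i2 + j + 1) ≤ N (i2 + j + 2) := by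
    intro j
    induction j with
    | zero =>
      refine ⟨h0, h1, ?_⟩
      have := hN i2
      simp only [Nat.add_zero]
      omega
    | succ j ih =>
      obtain ⟨a1, a2, a3⟩ := ih
      have := hN (i2 + j + 1)
      rw [show i2 + (j + 1) = i2 + j + 1 by ring]
      rw [show i2 + j + 1 + 1 = i2 + j + 2 by ring] at *
      refine ⟨by omega, by omega, by omega⟩
  refine ⟨i2 + 2, ?_⟩
  intro i hi
  obtain ⟨j, rfl⟩ : ∃ j, i = i2 + j + 2 := ⟨i - (i2 + 2), by omega⟩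
  obtain ⟨a1, a2, a3⟩ := key j
  have := hN (i2 + j + 1)
  rw [show i2 + j + 1 + 1 = i2 + j + 2 by ring] at this
  rw [show i2 + j + 1 + 2 = i2 + j + 2 + 1 by ring] at this
  omega

variable {k : Type} [Field k] [CharP k 2]

namespace MinRes

variable {X : Type} [AddCommGroup X] [Module (A k) X] (ρ : MinRes k X)

/-- The `i`-th step of a minimal resolution. -/
def step (i : ℕ) : Step k where
  n := ρ.n i
  n' := ρ.n (i + 1)
  K := ρ.K i
  K' := ρ.K (i + 1)
  f := ρ.f i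
  range_f := ρ.f_range i
  ker_f := ρ.f_ker i
  small := ρ.small i
  small' := ρ.small (i + 1)

theorem gens (i : ℕ) : d (ρ.K i) = ρ.n (i + 1) + d (𝔪 k • ρ.K i) :=
  Pool.Agent.ExtGap.gens (ρ.step i)

theorem defect (i : ℕ) : d (ρ.K i) + 2 * d ((ρ.K 0).map (μa k (ρ.n 0))) =
    d (ρ.K 0) + 2 * d ((ρ.K i).map (μa k (ρ.n i))) := by
  induction i with
  | zero => rfl
  | succ i ih =>
    have h : d (ρ.K (i + 1)) + 2 * d ((ρ.K i).map (μa k (ρ.n i))) =
        d (ρ.K i) + 2 * d ((ρ.K (i + 1)).map (μa k (ρ.n (i + 1)))) :=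
      Pool.Agent.ExtGap.defect (ρ.step i)
    omega

theorem growth (i : ℕ) : 4 * ρ.n (i + 1) ≤ ρ.n (i + 2) + ρ.n i + d (ρ.K 0) := by
  have h1 : d (𝔪 k • ρ.K (i + 1)) + d ((ρ.K i).map (μa k (ρ.n i))) ≤ 7 * ρ.n (i + 1) :=
    ineq1 (ρ.step i)
  have h2 : d (𝔪 k • ρ.K i) + d ((ρ.K i).map (μa k (ρ.n i))) ≤ ρ.n i + d (ρ.K i) :=
    ineq2 (ρ.step i)
  have h3 : d (ρ.K i) + d (ρ.K (i + 1)) = 12 * ρ.n (i + 1) := dim_step (ρ.step i)
  have h4 := ρ.gens i
  have h5 := ρ.gens (i + 1)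
  have h6 := ρ.defect i
  rw [show i + 1 + 1 = i + 2 by ring] at h5
  omega

/-- Either the Betti numbers are bounded or they grow geometrically. -/
theorem dichotomy : (∃ B, ∀ i, ρ.n i ≤ B) ∨
    ∃ i0, ∀ i ≥ i0, 1 ≤ ρ.n i ∧ 5 * ρ.n i ≤ 2 * ρ.n (i + 1) := by
  by_cases h : ∀ B, ∃ i, B < ρ.n i
  · exact Or.inr (growth_seq ρ.n _ ρ.growth h)
  · push_neg at h
    exact Or.inl h

/-- Bounded Betti numbers over a finite ring force a repetition. -/
theorem exists_repeat [Finite k] (B : ℕ) (hB : ∀ i, ρ.n i ≤ B) :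
    ∃ i p, 1 ≤ p ∧ (⟨ρ.n i, ρ.K i⟩ : Σ n : ℕ, Submodule (A k) (Fin n → A k)) =
      ⟨ρ.n (i + p), ρ.K (i + p)⟩ := by
  let T := Σ n : Fin (B + 1), Submodule (A k) (Fin n.1 → A k)
  haveI : Finite T := by
    haveI : ∀ n : ℕ, Finite (Submodule (A k) (Fin n → A k)) := fun n =>
      Finite.of_injective (fun K => (K : Set (Fin n → A k))) SetLike.coe_injective
    infer_instance
  let F : ℕ → T := fun i => ⟨⟨ρ.n i, Nat.lt_succ_of_le (hB i)⟩, ρ.K i⟩
  obtain ⟨i, j, hij, hF⟩ := Finite.exists_ne_map_eq_of_infinite F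
  let G : T → (Σ n : ℕ, Submodule (A k) (Fin n → A k)) := fun t => ⟨t.1.1, t.2⟩
  have hG : ∀ i, G (F i) = ⟨ρ.n i, ρ.K i⟩ := fun i => rfl
  rcases lt_or_gt_of_ne hij with h | h
  · refine ⟨i, j - i, by omega, ?_⟩
    rw [show i + (j - i) = j by omega, ← hG i, ← hG j, hF]
  · refine ⟨j, i - j, by omega, ?_⟩
    rw [show j + (i - j) = i by omega, ← hG i, ← hG j, hF]

end MinRes

/-- Vanishing only depends on the class of the syzygy. -/
theorem EV_sigma_left (n : ℕ) (N : Type) [AddCommGroup N] [Module (A k) N]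
    (s t : Σ n : ℕ, Submodule (A k) (Fin n → A k)) (h : s = t) :
    EV (A k) n s.2 N ↔ EV (A k) n t.2 N := by
  subst h
  exact Iff.rfl

theorem EV_sigma_right (n : ℕ) (N : Type) [AddCommGroup N] [Module (A k) N]
    (s t : Σ n : ℕ, Submodule (A k) (Fin n → A k)) (h : s = t) :
    EV (A k) n N (D k s.2) ↔ EV (A k) n N (D k t.2) := by
  subst h
  exact Iff.rfl

theorem of_periodic (P : ℕ → Prop) (p : ℕ) (hp : 1 ≤ p) (h : ∀ n, 1 ≤ n → (P n ↔ P (n + p)))
    (n0 : ℕ) (h0 : ∀ n, n0 ≤ n → P n) : ∀ n, 1 ≤ n → P n := by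
  intro n hn
  have key : ∀ t, P n ↔ P (n + t * p) := by
    intro t
    induction t with
    | zero => simp
    | succ t ih =>
      rw [ih, h (n + t * p) (by omega)]
      rw [show n + t * p + p = n + (t + 1) * p by ring]
  rw [key n0]
  exact h0 _ (by nlinarith)

section main
variable [Finite k] (M N : Type) [AddCommGroup M] [Module (A k) M] [Module.Finite (A k) M]
  [AddCommGroup N] [Module (A k) N] [Module.Finite (A k) N]
  [Module k M] [IsScalarTower k (A k) M] [Module k N] [IsScalarTower k (A k) N]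

theorem uac_aux (n0 : ℕ) (h0 : ∀ n, n0 ≤ n → EV (A k) n M N) :
    ∀ n, 1 ≤ n → EV (A k) n M N := by
  haveI : Module.Finite k M := Module.Finite.trans (A k) M
  haveI : Module.Finite k N := Module.Finite.trans (A k) N
  haveI : Module.Finite (A k) (D k M) := Module.Finite.of_restrictScalars_finite k _ _
  haveI : Module.Finite (A k) (D k N) := Module.Finite.of_restrictScalars_finite k _ _
  obtain ⟨ρ⟩ := exists_minRes (k := k) M
  obtain ⟨σ⟩ := exists_minRes (k := k) (D k N)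
  have hDD : ∀ (n : ℕ) (Y : Type) [AddCommGroup Y] [Module (A k) Y],
      EV (A k) n Y N ↔ EV (A k) n Y (D k (D k N)) := fun n Y _ _ =>
    EV_congr_right_iff (equivDD (k := k) N) n
  -- one of the two resolutions is bounded
  have hone : (∃ B, ∀ i, ρ.n i ≤ B) ∨ (∃ B, ∀ i, σ.n i ≤ B) := by
    rcases ρ.dichotomy with h | ⟨i0, hi0⟩
    · exact Or.inl h
    rcases σ.dichotomy with h | ⟨j0, hj0⟩
    · exact Or.inr h
    exfalso
    set i := i0 + n0 with hi
    have hE : EV (A k) 1 (ρ.K i) (D k (σ.K j0)) := by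
      have h1 := (ρ.shift_left (N := N) i (j0 + 1)).mp (h0 _ (by omega))
      rw [hDD] at h1
      have h2 := (σ.shift_dual_right (N := ρ.K i) j0 0).mp (by
        rw [show 0 + j0 + 2 = j0 + 1 + 1 by ring]
        exact h1)
      exact h2
    have hext := ρ.extend i hE
    have hC := lemC (ρ.K (i + 1)) (σ.K j0) (ρ.small _) (σ.small _) hext
      (ρ.n (i + 2)) (σ.n (j0 + 1)) (ρ.gens (i + 1)) (σ.gens j0)
    obtain ⟨a1, a2⟩ := hi0 (i + 1) (by omega)
    obtain ⟨b1, b2⟩ := hj0 j0 le_rfl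
    rw [show i + 1 + 1 = i + 2 by ring] at a2
    have h1 : (5 * ρ.n (i + 1)) * (5 * σ.n j0) ≤ (2 * ρ.n (i + 2)) * (2 * σ.n (j0 + 1)) :=
      Nat.mul_le_mul a2 b2
    have h2 : 1 ≤ ρ.n (i + 1) * σ.n j0 := Nat.mul_pos a1 b1
    nlinarith
  rcases hone with ⟨B, hB⟩ | ⟨B, hB⟩
  · -- bounded Betti numbers on the left
    obtain ⟨i, p, hp, hrep⟩ := ρ.exists_repeat B hB
    obtain ⟨τ⟩ := exists_minRes (k := k) N
    refine of_periodic _ p hp ?_ n0 h0
    intro n hn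
    obtain ⟨j, rfl⟩ : ∃ j, n = j + 1 := ⟨n - 1, by omega⟩
    have hper : ∀ (Y : Type) [AddCommGroup Y] [Module (A k) Y] (j : ℕ),
        EV (A k) (j + i + 2) M Y ↔ EV (A k) (j + i + 2 + p) M Y := by
      intro Y _ _ j
      rw [ρ.shift_left i j, show j + i + 2 + p = j + (i + p) + 2 by ring,
        ρ.shift_left (i + p) j]
      exact EV_sigma_left (j + 1) Y ⟨ρ.n i, ρ.K i⟩ ⟨ρ.n (i + p), ρ.K (i + p)⟩ hrep
    rw [← τ.shift_right (N := M) i j, hper, show j + i + 2 + p = (j + p) + i + 2 by ring,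
      τ.shift_right (N := M) i (j + p), show j + p + 1 = j + 1 + p by ring]
  · -- bounded Bass numbers on the right
    obtain ⟨i, p, hp, hrep⟩ := σ.exists_repeat B hB
    obtain ⟨τ⟩ := exists_minRes (k := k) (D k M)
    refine of_periodic _ p hp ?_ n0 h0
    intro n hn
    obtain ⟨j, rfl⟩ : ∃ j, n = j + 1 := ⟨n - 1, by omega⟩
    have hper : ∀ (Y : Type) [AddCommGroup Y] [Module (A k) Y] (j : ℕ),
        EV (A k) (j + i + 2) Y N ↔ EV (A k) (j + i + 2 + p) Y N := by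
      intro Y _ _ j
      rw [hDD, hDD, σ.shift_dual_right i j, show j + i + 2 + p = j + (i + p) + 2 by ring,
        σ.shift_dual_right (i + p) j]
      exact EV_sigma_right (j + 1) Y ⟨σ.n i, σ.K i⟩ ⟨σ.n (i + p), σ.K (i + p)⟩ hrep
    have hM : ∀ j, EV (A k) (j + 1) M N ↔ EV (A k) (j + i + 2) (D k (τ.K i)) N := by
      intro j
      rw [τ.shift_dual_left i j]
      exact EV_congr_left_iff (equivDD (k := k) M) (j + 1)
    rw [hM, hper, show j + i + 2 + p = (j + p) + i + 2 by ring, ← hM,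
      show j + p + 1 = j + 1 + p by ring]

end main

end Pool.Agent.ExtGap
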