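import Mathlib
import Pool.Agent.ExtGap.Res

set_option autoImplicit false

namespace Pool.Agent.ExtGap

/-- The base ring, with four thousand and ninety six elements. -/
abbrev R₀ : Type := A (ZMod 2)

variable {F : Type} [Field F] [Algebra (ZMod 2) F]

/-- Extension of scalars. -/
def mapA (F : Type) [Field F] [Algebra (ZMod 2) F] : R₀ →+* A F where
  toFun x := A.mk (fun i => algebraMap (ZMod 2) F (x i))
  map_one' := by apply A.ext12 <;> simp
  map_mul' x y := by apply A.ext12 <;> simp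
  map_zero' := by apply A.ext12 <;> simp
  map_add' x y := by apply A.ext12 <;> simp

@[simp] theorem mapA_apply (x : R₀) (i : Fin 12) :
    mapA F x i = algebraMap (ZMod 2) F (x i) := rfl

/-- The algebra structure; only used locally. -/
abbrev algA (F : Type) [Field F] [Algebra (ZMod 2) F] : Algebra R₀ (A F) := (mapA F).toAlgebra

attribute [local instance] algA

theorem smul_def' (r : R₀) (x : A F) : r • x = mapA F r * x := rfl

/-- Constants. -/
def C (c : F) : A F := A.mk ![c, 0, 0, 0, 0, 0, 0, 0, 0, 0, 0, 0]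

/-- The basis elements of the base ring. -/
def e (i : Fin 12) : R₀ := A.mk (Pi.single i 1)

theorem e_apply (i j : Fin 12) : e i j = if j = i then 1 else 0 := by
  simp [e, Pi.single_apply]

theorem eq_sum_C (x : A F) : x = ∑ i : Fin 12, e i • C (x i) := by
  rw [Fin.sum_univ_castSucc, Fin.sum_univ_castSucc, Fin.sum_univ_castSucc, Fin.sum_univ_castSucc,
    Fin.sum_univ_castSucc, Fin.sum_univ_castSucc, Fin.sum_univ_six]
  apply A.ext12 <;> simp [smul_def', C, e_apply]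


@[simp] theorem C_0 (c : F) : C c 0 = c := rfl

theorem C_add (c c' : F) : C (c + c') = C c + C c' := by
  apply A.ext12 <;> simp [C]

theorem C_zero : C (0 : F) = 0 := by
  apply A.ext12 <;> simp [C]

/-- The comparison map for the freeness of the extended ring. -/
noncomputable def freeMap (m : ℕ) (b : Fin m → F) : (Fin m → R₀) →ₗ[R₀] A F where
  toFun v := ∑ i, v i • C (b i)
  map_add' v w := by simp [add_smul, Finset.sum_add_distrib]
  map_smul' r v := by simp [Finset.smul_sum, mul_smul]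

theorem sum_apply {ι : Type} [Fintype ι] (g : ι → A F) (j : Fin 12) :
    (∑ i, g i) j = ∑ i, (g i) j := by
  classical
  exact Finset.sum_apply j Finset.univ g

theorem freeMap_apply (m : ℕ) (b : Fin m → F) (v : Fin m → R₀) (j : Fin 12) :
    freeMap m b v j = ∑ i, (v i j) • b i := by
  change (∑ i, v i • C (b i)) j = _
  rw [sum_apply]
  refine Finset.sum_congr rfl fun i _ => ?_
  rw [smul_def', Algebra.smul_def]
  fin_cases j <;> simp [C]

theorem freeMap_bijective (m : ℕ) (b : Module.Basis (Fin m) (ZMod 2) F) :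
    Function.Bijective (freeMap m b) := by
  constructor
  · intro v w h
    funext i
    apply A.ext
    intro j
    have h1 : ∑ i, (v i j) • b i = ∑ i, (w i j) • b i := by
      rw [← freeMap_apply, ← freeMap_apply, h]
    have h2 := congrArg (fun z => b.repr z i) h1
    simp only [b.repr_sum_self] at h2
    exact h2
  · intro x
    refine ⟨fun i => A.mk (fun j => b.repr (x j) i), ?_⟩
    apply A.ext
    intro j
    rw [freeMap_apply]
    exact b.sum_repr (x j)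

theorem free_A [Module.Finite (ZMod 2) F] : Module.Free R₀ (A F) :=
  Module.Free.of_equiv (LinearEquiv.ofBijective
    (freeMap _ (Module.finBasis (ZMod 2) F)) (freeMap_bijective _ _))

/-- The ambient free module. -/
abbrev P (F : Type) : Type := A F × A F

/-- Linear maps out of `P` are determined on constants. -/
theorem P_ext {N : Type} [AddCommGroup N] [Module R₀ N] (f g : P F →ₗ[R₀] N)
    (h1 : ∀ c, f (C c, 0) = g (C c, 0)) (h2 : ∀ c, f (0, C c) = g (0, C c)) : f = g := by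
  apply LinearMap.ext
  rintro ⟨x, y⟩
  have hx : ∀ (f : P F →ₗ[R₀] N) (x : A F), f (x, 0) = ∑ i, e i • f (C (x i), 0) := by
    intro f x
    have h := congrArg (fun z => f (LinearMap.inl R₀ (A F) (A F) z)) (eq_sum_C x)
    simp only [map_sum, map_smul] at h
    exact h
  have hy : ∀ (f : P F →ₗ[R₀] N) (x : A F), f (0, x) = ∑ i, e i • f (0, C (x i)) := by
    intro f x
    have h := congrArg (fun z => f (LinearMap.inr R₀ (A F) (A F) z)) (eq_sum_C x)
    simp only [map_sum, map_smul] at h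
    exact h
  have hxy : ((x, y) : P F) = (x, 0) + (0, y) := by simp
  rw [hxy, map_add, map_add, hx, hx, hy, hy]
  simp only [h1, h2]

/-- The differential with parameter `t`. -/
def Φt (β t : F) : P F →ₗ[R₀] P F where
  toFun v := (A.a * v.1 + A.mk ![0, 0, 0, t, 0, 0, 0, 0, 0, 0, 0, 0] * v.2,
    A.mk ![0, 0, 0, 0, 1, 0, 0, 0, 0, 0, 0, 0] * v.1 +
      A.mk ![0, β, 1, 0, 0, 0, 0, 0, 0, 0, 0, 0] * v.2)
  map_add' v w := by
    apply Prod.ext
    · simp only [Prod.fst_add, Prod.snd_add]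
      ring
    · simp only [Prod.fst_add, Prod.snd_add]
      ring
  map_smul' r v := by
    apply Prod.ext
    · simp only [Prod.smul_fst, Prod.smul_snd, smul_def', RingHom.id_apply]
      ring
    · simp only [Prod.smul_fst, Prod.smul_snd, smul_def', RingHom.id_apply]
      ring

theorem Φt_apply (β t : F) (v : P F) : Φt β t v =
    (A.a * v.1 + A.mk ![0, 0, 0, t, 0, 0, 0, 0, 0, 0, 0, 0] * v.2,
    A.mk ![0, 0, 0, 0, 1, 0, 0, 0, 0, 0, 0, 0] * v.1 +
      A.mk ![0, β, 1, 0, 0, 0, 0, 0, 0, 0, 0, 0] * v.2) := rfl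

theorem ker_eq_range [CharP F 2] (β t : F) (hβ : β ≠ 0) :
    LinearMap.ker (Φt β t) = LinearMap.range (Φt β (β * t)) := by
  ext v
  constructor
  · intro hv
    obtain ⟨x, y⟩ := v
    rw [LinearMap.mem_ker, Φt_apply, Prod.mk_eq_zero] at hv
    obtain ⟨h1, h2⟩ := hv
    have a1 := congrArg (fun x : A F => x 1) h1
    have a6 := congrArg (fun x : A F => x 6) h1
    have a7 := congrArg (fun x : A F => x 7) h1
    have a8 := congrArg (fun x : A F => x 8) h1
    have a9 := congrArg (fun x : A F => x 9) h1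
    have a10 := congrArg (fun x : A F => x 10) h1
    have a11 := congrArg (fun x : A F => x 11) h1
    have b2 := congrArg (fun x : A F => x 2) h2
    have b7 := congrArg (fun x : A F => x 7) h2
    have b8 := congrArg (fun x : A F => x 8) h2
    have b9 := congrArg (fun x : A F => x 9) h2
    have b10 := congrArg (fun x : A F => x 10) h2
    have b11 := congrArg (fun x : A F => x 11) h2
    simp at a1 a6 a7 a8 a9 a10 a11 b2 b7 b8 b9 b10 b11
    have h2' : (2 : F) = 0 := CharTwo.two_eq_zero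
    have b9' : y 3 = 0 := b9.resolve_left hβ
    have e2 : x 2 = x 1 := by linear_combination a8 - x 1 * h2'
    have f1 : y 1 = β * y 2 := by linear_combination b8 - β * y 2 * h2'
    have e3 : x 3 = β * t * y 2 := by linear_combination a9 - t * b8
    have e7 : x 7 = x 6 + t * y 9 := by linear_combination a11 - (x 6 + t * y 9) * h2'
    have f4 : y 4 = x 1 := by linear_combination b10 - a8
    have f6 : y 6 = x 10 + β * y 7 := by linear_combination b11 - (x 10 + β * y 7) * h2'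
    refine ⟨(A.mk ![x 1, x 8, 0, x 9, x 10, x 6, x 11, 0, 0, 0, 0, 0],
      A.mk ![y 2, 0, β⁻¹ * y 8, β⁻¹ * y 9, y 10, y 7, y 11, 0, 0, 0, 0, 0]), ?_⟩
    rw [Φt_apply]
    apply Prod.ext
    · apply A.ext12 <;> simp [a1, a6, a10, e2, e3, e7]
      field_simp
    · apply A.ext12 <;> simp [b2, b7, b9', f1, f4, f6]
      · field_simp
      · field_simp
  · rintro ⟨⟨x, y⟩, rfl⟩
    rw [LinearMap.mem_ker, Φt_apply, Φt_apply, Prod.mk_eq_zero]
    have h2 : (2 : F) = 0 := CharTwo.two_eq_zero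
    constructor
    · apply A.ext12 <;> simp <;> ring_nf <;> simp [h2]
    · apply A.ext12 <;> simp <;> ring_nf <;> simp [h2]

/-- The two dimensional test module. -/
def Nθ : Type := ZMod 2 × ZMod 2

namespace Nθ

instance : AddCommGroup Nθ := inferInstanceAs (AddCommGroup (ZMod 2 × ZMod 2))
instance : Finite Nθ := inferInstanceAs (Finite (ZMod 2 × ZMod 2))

/-- Constructor. -/
def mk (u v : ZMod 2) : Nθ := (u, v)

@[simp] theorem mk_fst (u v : ZMod 2) : (mk u v).1 = u := rfl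
@[simp] theorem mk_snd (u v : ZMod 2) : (mk u v).2 = v := rfl

@[ext] theorem ext {x y : Nθ} (h1 : x.1 = y.1) (h2 : x.2 = y.2) : x = y := Prod.ext h1 h2

@[simp] theorem add_fst (x y : Nθ) : (x + y).1 = x.1 + y.1 := rfl
@[simp] theorem add_snd (x y : Nθ) : (x + y).2 = x.2 + y.2 := rfl
@[simp] theorem zero_fst : (0 : Nθ).1 = 0 := rfl
@[simp] theorem zero_snd : (0 : Nθ).2 = 0 := rfl

instance : SMul R₀ Nθ where
  smul r x := mk (r 0 * x.1) (r 0 * x.2 + (r 2 + r 3 + r 4) * x.1)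

@[simp] theorem smul_fst (r : R₀) (x : Nθ) : (r • x).1 = r 0 * x.1 := rfl
@[simp] theorem smul_snd (r : R₀) (x : Nθ) :
    (r • x).2 = r 0 * x.2 + (r 2 + r 3 + r 4) * x.1 := rfl

instance : Module R₀ Nθ where
  one_smul x := by ext <;> simp
  mul_smul r s x := by
    ext
    · simp [mul_assoc]
    · simp
      ring
  smul_zero r := by ext <;> simp
  smul_add r x y := by
    ext
    · simp [mul_add]
    · simp
      ring
  add_smul r s x := by
    ext
    · simp [add_mul]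
    · simp
      ring
  zero_smul x := by ext <;> simp

end Nθ

theorem add_hom_smul (α : F →+ ZMod 2) (c : ZMod 2) (x : F) :
    α (algebraMap (ZMod 2) F c * x) = c * α x := by
  rw [← Algebra.smul_def]
  exact (α.toZModLinearMap 2).map_smul c x

/-- The homomorphism with given leading parts. -/
def H (α₁ α₂ : F →+ ZMod 2) : P F →ₗ[R₀] Nθ where
  toFun v := Nθ.mk (α₁ (v.1 0) + α₂ (v.2 0))
    (α₁ (v.1 2 + v.1 3 + v.1 4) + α₂ (v.2 2 + v.2 3 + v.2 4))
  map_add' v w := by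
    apply Nθ.ext
    · simp
      ring
    · simp
      ring
  map_smul' r v := by
    apply Nθ.ext
    · simp [smul_def', add_hom_smul]
      ring
    · simp [smul_def', add_hom_smul]
      ring

/-- The homomorphism into the socle with given values. -/
def G (γ₁ γ₂ : F →+ ZMod 2) : P F →ₗ[R₀] Nθ where
  toFun v := Nθ.mk 0 (γ₁ (v.1 0) + γ₂ (v.2 0))
  map_add' v w := by
    apply Nθ.ext
    · simp
    · simp
      ring
  map_smul' r v := by
    apply Nθ.ext
    · simp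
    · simp [smul_def', add_hom_smul]
      ring

theorem H_fst (α₁ α₂ : F →+ ZMod 2) (v : P F) : (H α₁ α₂ v).1 = α₁ (v.1 0) + α₂ (v.2 0) := rfl
theorem H_snd (α₁ α₂ : F →+ ZMod 2) (v : P F) : (H α₁ α₂ v).2 =
    α₁ (v.1 2 + v.1 3 + v.1 4) + α₂ (v.2 2 + v.2 3 + v.2 4) := rfl
theorem G_fst (γ₁ γ₂ : F →+ ZMod 2) (v : P F) : (G γ₁ γ₂ v).1 = 0 := rfl
theorem G_snd (γ₁ γ₂ : F →+ ZMod 2) (v : P F) : (G γ₁ γ₂ v).2 =
    γ₁ (v.1 0) + γ₂ (v.2 0) := rfl

theorem H_zero : (H 0 0 : P F →ₗ[R₀] Nθ) = 0 := by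
  apply LinearMap.ext
  intro v
  apply Nθ.ext
  · rw [H_fst]
    simp
  · rw [H_snd]
    simp

theorem add_fst_zero (c c' : F) : ((C (c + c'), 0) : P F) = (C c, 0) + (C c', 0) := by
  simp [C_add]

theorem add_snd_zero (c c' : F) : ((0, C (c + c')) : P F) = (0, C c) + (0, C c') := by
  simp [C_add]

/-- Every homomorphism is a sum of the two standard types. -/
theorem exists_decomp (g : P F →ₗ[R₀] Nθ) : ∃ α₁ α₂ γ₁ γ₂ : F →+ ZMod 2,
    g = H α₁ α₂ + G γ₁ γ₂ := by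
  let α₁ : F →+ ZMod 2 := AddMonoidHom.mk' (fun c => (g (C c, 0)).1)
    (fun c c' => by rw [add_fst_zero, map_add]; rfl)
  let α₂ : F →+ ZMod 2 := AddMonoidHom.mk' (fun c => (g (0, C c)).1)
    (fun c c' => by rw [add_snd_zero, map_add]; rfl)
  let γ₁ : F →+ ZMod 2 := AddMonoidHom.mk' (fun c => (g (C c, 0)).2)
    (fun c c' => by rw [add_fst_zero, map_add]; rfl)
  let γ₂ : F →+ ZMod 2 := AddMonoidHom.mk' (fun c => (g (0, C c)).2)
    (fun c c' => by rw [add_snd_zero, map_add]; rfl)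
  refine ⟨α₁, α₂, γ₁, γ₂, ?_⟩
  apply P_ext
  · intro c
    have e1 : (g (C c, 0)).1 = α₁ c := rfl
    have e2 : (g (C c, 0)).2 = γ₁ c := rfl
    apply Nθ.ext
    · rw [LinearMap.add_apply, Nθ.add_fst, H_fst, G_fst, e1]
      simp
    · rw [LinearMap.add_apply, Nθ.add_snd, H_snd, G_snd, e2]
      simp [C]
  · intro c
    have e1 : (g (0, C c)).1 = α₂ c := rfl
    have e2 : (g (0, C c)).2 = γ₂ c := rfl
    apply Nθ.ext
    · rw [LinearMap.add_apply, Nθ.add_fst, H_fst, G_fst, e1]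
      simp
    · rw [LinearMap.add_apply, Nθ.add_snd, H_snd, G_snd, e2]
      simp [C]

theorem HG_comp (β s : F) (α₁ α₂ γ₁ γ₂ : F →+ ZMod 2) (h1 : ∀ c, α₁ c + α₂ c = 0)
    (h2 : ∀ c, α₁ (s * c) + α₂ c = 0) : (H α₁ α₂ + G γ₁ γ₂) ∘ₗ Φt β s = 0 := by
  apply P_ext
  · intro c
    apply Nθ.ext
    · rw [LinearMap.comp_apply, LinearMap.add_apply, Nθ.add_fst, H_fst, G_fst, Φt_apply]
      simp [C]
    · rw [LinearMap.comp_apply, LinearMap.add_apply, Nθ.add_snd, H_snd, G_snd, Φt_apply]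
      simpa [C] using h1 c
  · intro c
    apply Nθ.ext
    · rw [LinearMap.comp_apply, LinearMap.add_apply, Nθ.add_fst, H_fst, G_fst, Φt_apply]
      simp [C]
    · rw [LinearMap.comp_apply, LinearMap.add_apply, Nθ.add_snd, H_snd, G_snd, Φt_apply]
      simpa [C] using h2 c

theorem comp_vals (β s : F) (α₁ α₂ γ₁ γ₂ : F →+ ZMod 2) (c : F) :
    ((H α₁ α₂ + G γ₁ γ₂) (Φt β s (C c, 0))).1 = 0 ∧
    ((H α₁ α₂ + G γ₁ γ₂) (Φt β s (C c, 0))).2 = α₁ c + α₂ c ∧
    ((H α₁ α₂ + G γ₁ γ₂) (Φt β s (0, C c))).1 = 0 ∧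
    ((H α₁ α₂ + G γ₁ γ₂) (Φt β s (0, C c))).2 = α₁ (s * c) + α₂ c := by
  refine ⟨?_, ?_, ?_, ?_⟩
  · rw [LinearMap.add_apply, Nθ.add_fst, H_fst, G_fst, Φt_apply]
    simp [C]
  · rw [LinearMap.add_apply, Nθ.add_snd, H_snd, G_snd, Φt_apply]
    simp [C]
  · rw [LinearMap.add_apply, Nθ.add_fst, H_fst, G_fst, Φt_apply]
    simp [C]
  · rw [LinearMap.add_apply, Nθ.add_snd, H_snd, G_snd, Φt_apply]
    simp [C]

/-- The modules of the family. -/
abbrev Qt (β t : F) : Type := P F ⧸ LinearMap.range (Φt β t)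

theorem exists_factor {R P₁ P₂ N : Type} [CommRing R] [AddCommGroup P₁] [Module R P₁]
    [AddCommGroup P₂] [Module R P₂] [AddCommGroup N] [Module R N]
    (f : P₁ →ₗ[R] P₂) (g : P₁ →ₗ[R] N) (h : LinearMap.ker f ≤ LinearMap.ker g) :
    ∃ φ : LinearMap.range f →ₗ[R] N, ∀ v, φ ⟨f v, ⟨v, rfl⟩⟩ = g v := by
  refine ⟨((LinearMap.ker f).liftQ g h) ∘ₗ f.quotKerEquivRange.symm.toLinearMap, fun v => ?_⟩
  have h1 : f.quotKerEquivRange.symm ⟨f v, ⟨v, rfl⟩⟩ = (LinearMap.ker f).mkQ v := by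
    rw [LinearEquiv.symm_apply_eq]
    rfl
  change ((LinearMap.ker f).liftQ g h) (f.quotKerEquivRange.symm ⟨f v, ⟨v, rfl⟩⟩) = g v
  rw [h1]
  rfl

theorem exists_functional (F : Type) [Field F] [Algebra (ZMod 2) F] :
    ∃ γ : F →+ ZMod 2, γ 1 ≠ 0 := by
  by_contra h
  push Not at h
  have h1 : (1 : F) = 0 := by
    rw [← Module.forall_dual_apply_eq_zero_iff (ZMod 2)]
    intro f
    exact h f.toAddMonoidHom
  exact one_ne_zero h1

theorem exact_sub_mkQ {R P₁ : Type} [CommRing R] [AddCommGroup P₁] [Module R P₁]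
    (K : Submodule R P₁) : Function.Exact K.subtype K.mkQ := by
  intro x
  rw [Submodule.mkQ_apply, Submodule.Quotient.mk_eq_zero]
  constructor
  · intro h
    exact ⟨⟨x, h⟩, rfl⟩
  · rintro ⟨y, rfl⟩
    exact y.2

theorem exists_solution (t : F) (ht : t ≠ 1) (γ₁ γ₂ : F →+ ZMod 2) :
    ∃ α₁ α₂ : F →+ ZMod 2, (∀ c, α₁ c + α₂ c = γ₁ c) ∧ (∀ c, α₁ (t * c) + α₂ c = γ₂ c) := by
  have hne : t - 1 ≠ 0 := sub_ne_zero.mpr ht
  refine ⟨(γ₂ - γ₁).comp (AddMonoidHom.mulLeft (t - 1)⁻¹),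
    γ₁ - (γ₂ - γ₁).comp (AddMonoidHom.mulLeft (t - 1)⁻¹), ?_, ?_⟩
  · intro c
    rw [AddMonoidHom.sub_apply]
    ring
  · intro c
    have h6 : (t - 1)⁻¹ * (t * c - c) = c := by
      field_simp
    have h7 : ((γ₂ - γ₁).comp (AddMonoidHom.mulLeft (t - 1)⁻¹)) (t * c) -
        ((γ₂ - γ₁).comp (AddMonoidHom.mulLeft (t - 1)⁻¹)) c = γ₂ c - γ₁ c := by
      rw [← map_sub]
      change (γ₂ - γ₁) ((t - 1)⁻¹ * (t * c - c)) = _
      rw [h6, AddMonoidHom.sub_apply]
    rw [AddMonoidHom.sub_apply]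
    linear_combination h7

theorem comp_solution (β t : F) (α₁ α₂ γ₁ γ₂ : F →+ ZMod 2) (h1 : ∀ c, α₁ c + α₂ c = γ₁ c)
    (h2 : ∀ c, α₁ (t * c) + α₂ c = γ₂ c) :
    (H α₁ α₂ + G 0 0) ∘ₗ Φt β t = G γ₁ γ₂ := by
  apply P_ext
  · intro c
    obtain ⟨a1, a2, -, -⟩ := comp_vals β t α₁ α₂ 0 0 c
    apply Nθ.ext
    · rw [LinearMap.comp_apply, a1, G_fst]
    · rw [LinearMap.comp_apply, a2, G_snd, h1]
      simp
  · intro c
    obtain ⟨-, -, a3, a4⟩ := comp_vals β t α₁ α₂ 0 0 c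
    apply Nθ.ext
    · rw [LinearMap.comp_apply, a3, G_fst]
    · rw [LinearMap.comp_apply, a4, G_snd, h2]
      simp

variable [Finite F] [CharP F 2]

theorem not_extend_of_t (β : F) (hβ : β ≠ 0)
    (h : ∀ φ : LinearMap.range (Φt β (1 : F)) →ₗ[R₀] Nθ, ∃ ψ : P F →ₗ[R₀] Nθ,
      ψ ∘ₗ (LinearMap.range (Φt β (1 : F))).subtype = φ) : False := by
  obtain ⟨γ, hγ⟩ := exists_functional F
  have hk : LinearMap.ker (Φt β (1 : F)) ≤ LinearMap.ker (H 0 0 + G γ 0) := by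
    rw [ker_eq_range β 1 hβ]
    rintro _ ⟨v, rfl⟩
    exact LinearMap.congr_fun (HG_comp β (β * 1) 0 0 γ 0 (by simp) (by simp)) v
  obtain ⟨φ, hφ⟩ := exists_factor _ _ hk
  obtain ⟨ψ, hψ⟩ := h φ
  obtain ⟨α₁, α₂, δ₁, δ₂, rfl⟩ := exists_decomp ψ
  have hv : ∀ v, (H α₁ α₂ + G δ₁ δ₂) (Φt β 1 v) =
      (H 0 0 + G γ 0 : P F →ₗ[R₀] Nθ) v := by
    intro v
    rw [← hφ v]
    exact LinearMap.congr_fun hψ ⟨Φt β 1 v, ⟨v, rfl⟩⟩
  obtain ⟨-, h2, -, h4⟩ := comp_vals β 1 α₁ α₂ δ₁ δ₂ (1 : F)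
  rw [hv, LinearMap.add_apply, Nθ.add_snd, H_snd, G_snd] at h2 h4
  simp [C] at h2 h4
  rw [← h4] at h2
  exact hγ h2

theorem not_extend_of_bt (β t : F) (hβ : β ≠ 0) (hbt : β * t = 1)
    (h : ∀ φ : LinearMap.range (Φt β t) →ₗ[R₀] Nθ, ∃ ψ : P F →ₗ[R₀] Nθ,
      ψ ∘ₗ (LinearMap.range (Φt β t)).subtype = φ) : False := by
  obtain ⟨γ, hγ⟩ := exists_functional F
  have hk : LinearMap.ker (Φt β t) ≤ LinearMap.ker (H γ γ + G 0 0) := by
    rw [ker_eq_range β t hβ]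
    rintro _ ⟨v, rfl⟩
    refine LinearMap.congr_fun (HG_comp β (β * t) γ γ 0 0 ?_ ?_) v
    · intro c
      exact CharTwo.add_self_eq_zero _
    · intro c
      rw [hbt, one_mul]
      exact CharTwo.add_self_eq_zero _
  obtain ⟨φ, hφ⟩ := exists_factor _ _ hk
  obtain ⟨ψ, hψ⟩ := h φ
  obtain ⟨α₁, α₂, δ₁, δ₂, rfl⟩ := exists_decomp ψ
  have hv : ∀ v, (H α₁ α₂ + G δ₁ δ₂) (Φt β t v) =
      (H γ γ + G 0 0 : P F →ₗ[R₀] Nθ) v := by
    intro v
    rw [← hφ v]
    exact LinearMap.congr_fun hψ ⟨Φt β t v, ⟨v, rfl⟩⟩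
  obtain ⟨h1, -, -, -⟩ := comp_vals β t α₁ α₂ δ₁ δ₂ (1 : F)
  rw [hv, LinearMap.add_apply, Nθ.add_fst, H_fst, G_fst] at h1
  simp at h1
  exact hγ h1

theorem eq_G_of_comp (β t : F) (hbt : β * t ≠ 1) (g : P F →ₗ[R₀] Nθ)
    (hgv : ∀ v, g (Φt β (β * t) v) = 0) : ∃ γ₁ γ₂ : F →+ ZMod 2, g = G γ₁ γ₂ := by
  obtain ⟨α₁, α₂, γ₁, γ₂, hdec⟩ := exists_decomp g
  have hα : ∀ c, α₁ c + α₂ c = 0 ∧ α₁ (β * t * c) + α₂ c = 0 := by
    intro c
    obtain ⟨-, h2, -, h4⟩ := comp_vals β (β * t) α₁ α₂ γ₁ γ₂ c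
    rw [← hdec, hgv] at h2 h4
    exact ⟨h2.symm, h4.symm⟩
  have hα₁ : ∀ c, α₁ c = 0 := by
    intro c
    have hne : β * t - 1 ≠ 0 := sub_ne_zero.mpr hbt
    obtain ⟨h2, h4⟩ := hα ((β * t - 1)⁻¹ * c)
    have h5 : α₁ (β * t * ((β * t - 1)⁻¹ * c)) - α₁ ((β * t - 1)⁻¹ * c) = 0 := by
      linear_combination h4 - h2
    rw [← map_sub] at h5
    have h6 : β * t * ((β * t - 1)⁻¹ * c) - (β * t - 1)⁻¹ * c = c := by
      field_simp
    rwa [h6] at h5
  have hα₂ : ∀ c, α₂ c = 0 := by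
    intro c
    have := (hα c).1
    rwa [hα₁, zero_add] at this
  have hz1 : α₁ = 0 := AddMonoidHom.ext hα₁
  have hz2 : α₂ = 0 := AddMonoidHom.ext hα₂
  exact ⟨γ₁, γ₂, by rw [hdec, hz1, hz2, H_zero, zero_add]⟩

theorem extend_of_ne (β t : F) (hβ : β ≠ 0) (ht : t ≠ 1) (hbt : β * t ≠ 1)
    (φ : LinearMap.range (Φt β t) →ₗ[R₀] Nθ) : ∃ ψ : P F →ₗ[R₀] Nθ,
      ψ ∘ₗ (LinearMap.range (Φt β t)).subtype = φ := by
  have hgv : ∀ v, (φ ∘ₗ (Φt β t).rangeRestrict) (Φt β (β * t) v) = 0 := by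
    intro v
    have h0 : Φt β t (Φt β (β * t) v) = 0 := by
      have : Φt β (β * t) v ∈ LinearMap.ker (Φt β t) := by
        rw [ker_eq_range β t hβ]
        exact ⟨v, rfl⟩
      exact this
    have h1 : (Φt β t).rangeRestrict (Φt β (β * t) v) = 0 := Subtype.ext h0
    rw [LinearMap.comp_apply, h1, map_zero]
  obtain ⟨γ₁, γ₂, hg⟩ := eq_G_of_comp β t hbt _ hgv
  obtain ⟨α₁', α₂', hs1, hs2⟩ := exists_solution t ht γ₁ γ₂
  have key := comp_solution β t α₁' α₂' γ₁ γ₂ hs1 hs2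
  rw [← hg] at key
  refine ⟨H α₁' α₂' + G 0 0, ?_⟩
  apply LinearMap.ext
  rintro ⟨_, ⟨v, rfl⟩⟩
  exact LinearMap.congr_fun key v

theorem EV_one_iff (β t : F) (hβ : β ≠ 0) :
    EV R₀ 1 (Qt β t) Nθ ↔ (t ≠ 1 ∧ β * t ≠ 1) := by
  have : Module.Finite (ZMod 2) F := Module.Finite.of_finite
  have : Module.Free R₀ (A F) := free_A
  rw [ext_one_iff (LinearMap.range (Φt β t)).subtype (LinearMap.range (Φt β t)).mkQ
    (Submodule.injective_subtype _) (Submodule.mkQ_surjective _) (exact_sub_mkQ _)]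
  constructor
  · intro h
    constructor
    · rintro rfl
      exact not_extend_of_t β hβ h
    · intro hbt
      exact not_extend_of_bt β t hβ hbt h
  · rintro ⟨ht, hbt⟩ φ
    exact extend_of_ne β t hβ ht hbt φ

theorem EV_shift (β t : F) (hβ : β ≠ 0) (n : ℕ) :
    EV R₀ (n + 2) (Qt β t) Nθ ↔ EV R₀ (n + 1) (Qt β (β * t)) Nθ := by
  have : Module.Finite (ZMod 2) F := Module.Finite.of_finite
  have : Module.Free R₀ (A F) := free_A
  rw [shift_left (LinearMap.range (Φt β t)).subtype (LinearMap.range (Φt β t)).mkQ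
    (Submodule.injective_subtype _) (Submodule.mkQ_surjective _) (exact_sub_mkQ _) n]
  refine EV_congr_left_iff ?_ (n + 1)
  exact (Φt β t).quotKerEquivRange.symm.trans
    (Submodule.quotEquivOfEq _ _ (ker_eq_range β t hβ))

theorem EV_iff (β t : F) (hβ : β ≠ 0) (n : ℕ) :
    EV R₀ (n + 1) (Qt β t) Nθ ↔ (β ^ n * t ≠ 1 ∧ β ^ (n + 1) * t ≠ 1) := by
  induction n generalizing t with
  | zero => simpa using EV_one_iff β t hβ
  | succ n ih =>
    rw [show n + 1 + 1 = n + 2 by ring, EV_shift β t hβ n, ih (β * t)]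
    rw [show β ^ n * (β * t) = β ^ (n + 1) * t by ring,
      show β ^ (n + 1) * (β * t) = β ^ (n + 2) * t by ring]

end Pool.Agent.ExtGap
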