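import Mathlib
import Pool.Agent.ExtGap.AB
import Pool.Agent.ExtGap.Gap

set_option autoImplicit false
open CategoryTheory

namespace Pool.Agent.ExtGap

/-- The ring is Gorenstein: all positive extension groups into it vanish. -/
theorem gorenstein (M : ModuleCat.{0} R₀) (i : ℕ) (hi : 1 ≤ i) :
    Subsingleton (Abelian.Ext M (ModuleCat.of R₀ R₀) i : Type) := by
  obtain ⟨j, rfl⟩ : ∃ j, i = j + 1 := ⟨i - 1, by omega⟩
  have : Injective (ModuleCat.of R₀ R₀) := Module.injective_object_of_injective_module R₀ R₀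
  exact Abelian.Ext.subsingleton_of_injective _ _ j

/-- The uniform Auslander condition, with bound one. -/
theorem uac (M N : ModuleCat.{0} R₀) (hM : Module.Finite R₀ M) (hN : Module.Finite R₀ N)
    (h : ∃ n : ℕ, ∀ i : ℕ, n ≤ i → Subsingleton (Abelian.Ext M N i : Type)) (i : ℕ)
    (hi : 1 ≤ i) : Subsingleton (Abelian.Ext M N i : Type) := by
  obtain ⟨n0, h0⟩ := h
  let _ : Module (ZMod 2) M := Module.compHom M (algebraMap (ZMod 2) R₀)
  let _ : Module (ZMod 2) N := Module.compHom N (algebraMap (ZMod 2) R₀)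
  have _ : IsScalarTower (ZMod 2) R₀ M := ⟨fun c r x => by
    change (c • r) • x = (algebraMap (ZMod 2) R₀ c) • (r • x)
    rw [Algebra.smul_def, mul_smul]⟩
  have _ : IsScalarTower (ZMod 2) R₀ N := ⟨fun c r x => by
    change (c • r) • x = (algebraMap (ZMod 2) R₀ c) • (r • x)
    rw [Algebra.smul_def, mul_smul]⟩
  exact uac_aux (k := ZMod 2) M N n0 (fun n hn => h0 n hn) i hi

/-- Finite fields of characteristic two contain elements of large order. -/
theorem exists_field (B : ℕ) : ∃ (F : Type) (_ : Field F) (_ : Algebra (ZMod 2) F)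
    (_ : Finite F) (_ : CharP F 2) (β : F), β ≠ 0 ∧ B + 3 ≤ orderOf β := by
  have hB : B + 3 ≠ 0 := by omega
  have hfin : Finite (GaloisField 2 (B + 3)) := inferInstance
  refine ⟨GaloisField 2 (B + 3), inferInstance, inferInstance, hfin, inferInstance, ?_⟩
  obtain ⟨g, hg⟩ := IsCyclic.exists_generator (α := (GaloisField 2 (B + 3))ˣ)
  have h1 : orderOf g = Nat.card (GaloisField 2 (B + 3))ˣ :=
    orderOf_eq_card_of_forall_mem_zpowers hg
  have h2 : Nat.card (GaloisField 2 (B + 3)) = 2 ^ (B + 3) := GaloisField.card 2 (B + 3) hB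
  have h3 : Nat.card (GaloisField 2 (B + 3))ˣ = 2 ^ (B + 3) - 1 := by
    rw [Nat.card_units, h2]
  refine ⟨g, g.ne_zero, ?_⟩
  rw [orderOf_units, h1, h3]
  have h4 : B + 3 < 2 ^ (B + 3) := Nat.lt_two_pow_self
  omega

/-- The gaps of extension groups over the ring are unbounded. -/
theorem gaps (B : ℕ) : ∃ M N : ModuleCat.{0} R₀, Module.Finite R₀ M ∧ Module.Finite R₀ N ∧
    ∃ n g : ℕ, Nontrivial (Abelian.Ext M N n : Type) ∧
      Nontrivial (Abelian.Ext M N (n + g + 1) : Type) ∧
      (∀ i : ℕ, n < i → i ≤ n + g → Subsingleton (Abelian.Ext M N i : Type)) ∧ B < g := by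
  obtain ⟨F, _, _, _, _, β, hβ, hord⟩ := exists_field B
  have hP : Finite (P F) := by
    unfold P
    infer_instance
  have hQ : Finite (Qt β (1 : F)) := Quotient.finite _
  refine ⟨ModuleCat.of R₀ (Qt β (1 : F)), ModuleCat.of R₀ Nθ, Module.Finite.of_finite,
    Module.Finite.of_finite, 1, orderOf β - 2, ?_, ?_, ?_, by omega⟩
  · rw [← not_subsingleton_iff_nontrivial]
    intro h
    have := (EV_iff β (1 : F) hβ 0).mp h
    simp at this
  · rw [← not_subsingleton_iff_nontrivial]
    intro h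
    have e : 1 + (orderOf β - 2) + 1 = (orderOf β - 1) + 1 := by omega
    rw [e] at h
    have := ((EV_iff β (1 : F) hβ (orderOf β - 1)).mp h).2
    rw [show orderOf β - 1 + 1 = orderOf β by omega, pow_orderOf_eq_one] at this
    simp at this
  · intro i h1 h2
    obtain ⟨j, rfl⟩ : ∃ j, i = j + 1 := ⟨i - 1, by omega⟩
    refine (EV_iff β (1 : F) hβ j).mpr ⟨?_, ?_⟩
    · rw [mul_one]
      exact pow_ne_one_of_lt_orderOf (by omega) (by omega)
    · rw [mul_one]
      exact pow_ne_one_of_lt_orderOf (by omega) (by omega)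

end Pool.Agent.ExtGap
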